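import Pool.Agent.Helper94.BRE.Defs
import Pool.Agent.Helper4.PQ0.M_MZZ
import Pool.Agent.Helper4.PQ0.M_HEC
import Pool.Agent.Helper4.PQ0.M_STL
import Pool.Agent.Helper4.PQ0.M_DRE
/-!
# OS MODULE MUK
-/

set_option autoImplicit false

namespace Pool.Agent.Helper94.BRE.MUK

open Matrix ComplexConjugate Pool.Agent.Helper94.YG
open Pool.Agent.Helper94.YF hiding StORB
open Pool.Agent.Helper89.OS hiding PD Cx Blk B0 Orb StXA StXB StXC StXE StCGR StISO StBLK StAMG StHEC StSTL StMZZ StDRE StTSU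
open Pool.Agent.Helper89.OC hiding Ks gX OB Lk StORB StTS2 StLKD StTAN GA Kp Gam StGA2 StE2 StE4 StE3 StIB StRB StMXX StGPZ StGPP StKSS StLKN
open Pool.Agent.Helper4.PQ0 Pool.Agent.Helper94.BRE



/-- A sum over all residues is the value at `0` plus the sum over the units. -/
theorem sum_residues {p : ℕ} (hp : p.Prime) [Fintype (ZMod (p ^ 1))] [Fintype (ZMod (p ^ 1))ˣ]
    (f : ZMod (p ^ 1) → ℂ) :
    ∑ w, f w = f 0 + ∑ u : (ZMod (p ^ 1))ˣ, f (u : ZMod (p ^ 1)) := by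
  classical
  have : Fact (p ^ 1).Prime := ⟨by simpa using hp⟩
  rw [← Finset.add_sum_erase Finset.univ f (Finset.mem_univ 0)]
  congr 1
  symm
  refine Finset.sum_bij (fun u _ => (u : ZMod (p ^ 1))) ?_ ?_ ?_ ?_
  · intro u _
    exact Finset.mem_erase.2 ⟨u.ne_zero, Finset.mem_univ _⟩
  · intro a _ b _ hab
    exact Units.ext hab
  · intro b hb
    exact ⟨Units.mk0 b (Finset.mem_erase.1 hb).1, Finset.mem_univ _, rfl⟩
  · intro u _
    rfl

/-- The sum of all powers of a `p`-th root of unity. -/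
theorem sum_pow_val {p : ℕ} (hp : p.Prime) [Fintype (ZMod (p ^ 1))] (θ : ℂ) (h : θ ^ (p ^ 1) = 1) :
    ∑ w : ZMod (p ^ 1), θ ^ w.val = if θ = 1 then (p : ℂ) else 0 := by
  classical
  have : NeZero (p ^ 1) := ⟨by simpa using hp.ne_zero⟩
  have h1 : ∑ w : ZMod (p ^ 1), θ ^ w.val = ∑ i ∈ Finset.range (p ^ 1), θ ^ i := by
    refine Finset.sum_bij (fun w _ => w.val) ?_ ?_ ?_ ?_
    · intro w _
      exact Finset.mem_range.2 (ZMod.val_lt w)
    · intro a _ b _ hab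
      exact ZMod.val_injective _ hab
    · intro b hb
      exact ⟨(b : ZMod (p ^ 1)), Finset.mem_univ _, ZMod.val_cast_of_lt (Finset.mem_range.1 hb)⟩
    · intro w _
      rfl
  rw [h1]
  split_ifs with hθ
  · subst hθ
    simp
  · have h2 : (∑ i ∈ Finset.range (p ^ 1), θ ^ i) * (θ - 1) = 0 := by
      rw [geom_sum_mul, h, sub_self]
    rcases mul_eq_zero.1 h2 with h3 | h3
    · exact h3
    · exact absurd (sub_eq_zero.1 h3) hθ

theorem mem_Orb {I : Type} [Fintype I] [DecidableEq I] {p : ℕ} (X : PD I p 1) (k i : I) :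
    i ∈ Orb X k ↔ ∃ c, X.pi c k = i := by
  simp only [Orb, Finset.mem_filter, Finset.mem_univ, true_and]

theorem fiber_card {I : Type} [Fintype I] [DecidableEq I] {p : ℕ} (X : PD I p 1) (k : I)
    [Fintype (ZMod (p ^ 1))ˣ] (i : I) (hi : i ∈ Orb X k) :
    (Finset.univ.filter fun c => X.pi c k = i).card =
      (Finset.univ.filter fun c => X.pi c k = k).card := by
  obtain ⟨c0, hc0⟩ := (mem_Orb X k i).1 hi
  refine Finset.card_nbij' (fun c => c0⁻¹ * c) (fun c => c0 * c) ?_ ?_ ?_ ?_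
  · intro c hc
    have hc' := (Finset.mem_filter.1 (Finset.mem_coe.1 hc)).2
    refine Finset.mem_coe.2 (Finset.mem_filter.2 ⟨Finset.mem_univ _, ?_⟩)
    show X.pi (c0⁻¹ * c) k = k
    rw [X.pi_mul, hc', ← hc0, ← X.pi_mul, inv_mul_cancel, X.pi_one]
  · intro c hc
    have hc' := (Finset.mem_filter.1 (Finset.mem_coe.1 hc)).2
    refine Finset.mem_coe.2 (Finset.mem_filter.2 ⟨Finset.mem_univ _, ?_⟩)
    show X.pi (c0 * c) k = i
    rw [X.pi_mul, hc', hc0]
  · intro c _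
    show c0 * (c0⁻¹ * c) = c
    rw [mul_inv_cancel_left]
  · intro c _
    show c0⁻¹ * (c0 * c) = c
    rw [inv_mul_cancel_left]

theorem sum_orb {I : Type} [Fintype I] [DecidableEq I] {p : ℕ} (X : PD I p 1) (k : I)
    [Fintype (ZMod (p ^ 1))ˣ] (F : I → ℂ) :
    ∑ c : (ZMod (p ^ 1))ˣ, F (X.pi c k) =
      ((Finset.univ.filter fun c => X.pi c k = k).card : ℂ) * ∑ i ∈ Orb X k, F i := by
  have h1 : ∀ c ∈ (Finset.univ : Finset (ZMod (p ^ 1))ˣ), X.pi c k ∈ Orb X k := by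
    intro c _
    exact (mem_Orb X k _).2 ⟨c, rfl⟩
  rw [← Finset.sum_fiberwise_of_maps_to h1, Finset.mul_sum]
  refine Finset.sum_congr rfl fun i hi => ?_
  rw [← fiber_card X k i hi]
  have h2 : ∀ c ∈ (Finset.univ.filter fun c => X.pi c k = i), F (X.pi c k) = F i := by
    intro c hc
    rw [(Finset.mem_filter.1 hc).2]
  rw [Finset.sum_congr rfl h2, Finset.sum_const, nsmul_eq_mul]

/-- The part (a) of the proof. -/
theorem part_a {I : Type} [Fintype I] [DecidableEq I] {p : ℕ} (X : PD I p 1) (k : I)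
    [Fintype (ZMod (p ^ 1))ˣ] (htk : X.t k = 1) [DecidablePred fun j => X.t j = 1] :
    (∑ j, if X.t j = 1 then ((‖X.s k j‖ ^ 2 : ℝ) : ℂ) else 0) =
      (p : ℂ) + ∑ c, X.s k (X.pi c k) := by
  classical
  have hp := X.prime
  have : NeZero (p ^ 1) := ⟨by simpa using hp.ne_zero⟩
  have hp0 : (p : ℂ) ≠ 0 := by exact_mod_cast hp.ne_zero
  have hk't : X.t (X.pi (-1) k) = 1 := by rw [X.pi_t, htk, one_pow]
  have hnorm : ∀ j, ((‖X.s k j‖ ^ 2 : ℝ) : ℂ) = X.s k j * X.s j (X.pi (-1) k) := by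
    intro j
    rw [X.s_symm j (X.pi (-1) k), X.pi_s, ← X.conj_s, Complex.mul_conj']
    push_cast
    rfl
  have hsum0 : ∑ j, X.s k j * X.s j (X.pi (-1) k) = (p : ℂ) ^ 2 := by
    rw [X.weil0, ← X.pi_mul, neg_mul_neg, one_mul, X.pi_one, if_pos rfl]
  have hunit : ∀ w : (ZMod (p ^ 1))ˣ,
      ∑ j, X.t j ^ (w : ZMod (p ^ 1)).val * (X.s k j * X.s j (X.pi (-1) k)) =
        (p : ℂ) * X.s k (X.pi (w⁻¹ * (-1)) k) := by
    intro w
    rw [X.weil, htk, hk't, one_pow, X.pi_mul]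
    ring
  have hbij : ∑ w : (ZMod (p ^ 1))ˣ, X.s k (X.pi (w⁻¹ * (-1)) k) = ∑ c, X.s k (X.pi c k) := by
    refine Finset.sum_nbij' (fun w => w⁻¹ * (-1)) (fun c => (c * (-1))⁻¹) ?_ ?_ ?_ ?_ ?_
    · intro w _
      exact Finset.mem_univ _
    · intro w _
      exact Finset.mem_univ _
    · intro w _
      show (w⁻¹ * (-1) * (-1))⁻¹ = w
      rw [mul_assoc, neg_mul_neg, one_mul, mul_one, inv_inv]
    · intro c _
      show ((c * (-1))⁻¹)⁻¹ * (-1) = c
      rw [inv_inv, mul_assoc, neg_mul_neg, one_mul, mul_one]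
    · intro w _
      rfl
  have hmain : ∑ w : ZMod (p ^ 1), ∑ j, X.t j ^ w.val * (X.s k j * X.s j (X.pi (-1) k)) =
      (p : ℂ) ^ 2 + (p : ℂ) * ∑ c, X.s k (X.pi c k) := by
    rw [sum_residues hp]
    congr 1
    · rw [← hsum0]
      refine Finset.sum_congr rfl fun j _ => ?_
      rw [ZMod.val_zero, pow_zero, one_mul]
    · rw [← hbij, Finset.mul_sum]
      exact Finset.sum_congr rfl fun w _ => hunit w
  have hleft : ∑ w : ZMod (p ^ 1), ∑ j, X.t j ^ w.val * (X.s k j * X.s j (X.pi (-1) k)) =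
      (p : ℂ) * ∑ j, if X.t j = 1 then ((‖X.s k j‖ ^ 2 : ℝ) : ℂ) else 0 := by
    rw [Finset.sum_comm, Finset.mul_sum]
    refine Finset.sum_congr rfl fun j _ => ?_
    rw [← Finset.sum_mul, sum_pow_val hp _ (X.t_pow j), hnorm j]
    by_cases ht : X.t j = 1
    · rw [if_pos ht, if_pos ht]
    · rw [if_neg ht, if_neg ht, zero_mul, mul_zero]
  have h3 := hleft.symm.trans hmain
  have h4 : (p : ℂ) * (∑ j, if X.t j = 1 then ((‖X.s k j‖ ^ 2 : ℝ) : ℂ) else 0) =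
      (p : ℂ) * ((p : ℂ) + ∑ c, X.s k (X.pi c k)) := by
    rw [h3]; ring
  exact mul_left_cancel₀ hp0 h4

end Pool.Agent.Helper94.BRE.MUK
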