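import Pool.Agent.Helper94.BRE.Defs
import Pool.Agent.Helper4.PQ0.M_MZZ
import Pool.Agent.Helper4.PQ0.M_HEC
import Pool.Agent.Helper4.PQ0.M_STL
import Pool.Agent.Helper4.PQ0.M_DRE
/-!
# OC MODULE E4
-/

set_option autoImplicit false

namespace Pool.Agent.Helper94.BRE.E4

open Matrix ComplexConjugate Pool.Agent.Helper94.YG
open Pool.Agent.Helper94.YF hiding StORB
open Pool.Agent.Helper89.OS hiding PD Cx Blk B0 Orb StXA StXB StXC StXE StCGR StISO StBLK StAMG StHEC StSTL StMZZ StDRE StTSU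
open Pool.Agent.Helper89.OC hiding Ks gX OB Lk StORB StTS2 StLKD StTAN GA Kp Gam StGA2 StE2 StE4 StE3 StIB StRB StMXX StGPZ StGPP StKSS StLKN
open Pool.Agent.Helper4.PQ0 Pool.Agent.Helper94.BRE



open Classical in
private theorem reidx {I : Type} [Fintype I] [DecidableEq I] {p : ℕ} [NeZero p] (X : PD I p 1)
    (hOB : OB X) (u : I → ℂ) (c : (ZMod (p ^ 1))ˣ) (i : I) :
    ∑ k, (X.s i (X.pi c k) * u k) = ∑ k, X.s i k * u (X.pi c⁻¹ k) := by
  refine Fintype.sum_bijective (X.pi c) (hOB.bij c) _ _ ?_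
  intro k
  have h : X.pi c⁻¹ (X.pi c k) = k := by
    rw [← X.pi_mul, inv_mul_cancel, X.pi_one]
  rw [h]

open Classical in
private theorem invsum {I : Type} [Fintype I] [DecidableEq I] {p : ℕ} [NeZero p] (X : PD I p 1)
    (u : I → ℂ) (k : I) :
    ∑ c, u (X.pi c⁻¹ k) = ∑ c, u (X.pi c k) :=
  Fintype.sum_equiv (Equiv.inv _) _ _ (fun _ => rfl)

open Classical in
theorem hE4 : StE4 := by
  intro hE2 hORB I _ _ p _ X u hu hsum
  have hOB := hORB I p X
  have h1 := hE2 I p X u hu 1 (one_pow p)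
  have hz : ∑ c : (ZMod (p ^ 1))ˣ,
      (1 : ℂ) ^ (((c⁻¹ : (ZMod (p ^ 1))ˣ) : ZMod (p ^ 1))).val *
        ∑ i, ∑ k, conj (u i) * (X.s i (X.pi c k) * u k) = 0 := by
    have e1 : ∀ c : (ZMod (p ^ 1))ˣ,
        (1 : ℂ) ^ (((c⁻¹ : (ZMod (p ^ 1))ˣ) : ZMod (p ^ 1))).val *
        ∑ i, ∑ k, conj (u i) * (X.s i (X.pi c k) * u k) =
        ∑ i, ∑ k, conj (u i) * X.s i k * u (X.pi c⁻¹ k) := by
      intro c
      rw [one_pow, one_mul]
      refine Finset.sum_congr rfl ?_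
      intro i _
      rw [← Finset.mul_sum, reidx X hOB u c i, Finset.mul_sum]
      refine Finset.sum_congr rfl ?_
      intro k _
      ring
    rw [Finset.sum_congr rfl (fun c _ => e1 c), Finset.sum_comm]
    refine Finset.sum_eq_zero ?_
    intro i _
    rw [Finset.sum_comm]
    refine Finset.sum_eq_zero ?_
    intro k _
    rw [← Finset.mul_sum, invsum X u k, hsum k, mul_zero]
  rw [hz, add_zero] at h1
  exact_mod_cast h1

end Pool.Agent.Helper94.BRE.E4
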