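import Pool.Agent.Helper94.BRE.Defs
import Pool.Agent.Helper4.PQ0.M_MZZ
import Pool.Agent.Helper4.PQ0.M_HEC
import Pool.Agent.Helper4.PQ0.M_STL
import Pool.Agent.Helper4.PQ0.M_DRE
/-!
# Project OC (MP_2b6189_al), module GPZ: a sum of variances
-/

set_option autoImplicit false

namespace Pool.Agent.Helper94.BRE.GPZ

open Matrix ComplexConjugate Pool.Agent.Helper94.YG
open Pool.Agent.Helper94.YF hiding StORB
open Pool.Agent.Helper89.OS hiding PD Cx Blk B0 Orb StXA StXB StXC StXE StCGR StISO StBLK StAMG StHEC StSTL StMZZ StDRE StTSU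
open Pool.Agent.Helper89.OC hiding Ks gX OB Lk StORB StTS2 StLKD StTAN GA Kp Gam StGA2 StE2 StE4 StE3 StIB StRB StMXX StGPZ StGPP StKSS StLKN
open Pool.Agent.Helper4.PQ0 Pool.Agent.Helper94.BRE



variable {I : Type} [Fintype I] [DecidableEq I] {p : ℕ} [NeZero p] (X : PD I p 1)

theorem gpz_card (hp : p.Prime) : (Fintype.card (ZMod (p ^ 1))ˣ : ℝ) = (p : ℝ) - 1 := by
  have h1 : Fintype.card (ZMod (p ^ 1))ˣ = p - 1 := by
    rw [ZMod.card_units_eq_totient, pow_one, Nat.totient_prime hp]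
  rw [h1, Nat.cast_sub hp.one_le]
  simp

theorem gpz_mem (c : (ZMod (p ^ 1))ˣ) (j : I) : X.pi c j ∈ Orb X j := by
  classical
  simp only [Orb, Finset.mem_filter, Finset.mem_univ, true_and]
  exact ⟨c, rfl⟩

theorem gpz_inv (c : (ZMod (p ^ 1))ˣ) (j : I) : X.pi c⁻¹ (X.pi c j) = j := by
  rw [← X.pi_mul, inv_mul_cancel, X.pi_one]

theorem gpz_mem' (c : (ZMod (p ^ 1))ˣ) (j : I) : j ∈ Orb X (X.pi c j) := by
  have h := gpz_mem X c⁻¹ (X.pi c j)
  rwa [gpz_inv] at h

/-- averaging over the torus -/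
theorem gpz_avg (hO : OB X) (G : I → ℝ) :
    (∑ c : (ZMod (p ^ 1))ˣ, ∑ j, (if X.t j = 1 then G (X.pi c j) else 0)) =
      ((p : ℝ) - 1) * ∑ j, (if X.t j = 1 then G j else 0) := by
  classical
  have h1 : ∀ c : (ZMod (p ^ 1))ˣ, (∑ j, (if X.t j = 1 then G (X.pi c j) else 0)) =
      ∑ j, (if X.t j = 1 then G j else 0) := by
    intro c
    rw [← Equiv.sum_comp (Equiv.ofBijective _ (hO.bij c)) (fun j => if X.t j = 1 then G j else 0)]
    apply Finset.sum_congr rfl
    intro j _
    simp only [Equiv.ofBijective_apply]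
    have h2 : X.t j = 1 ↔ X.t (X.pi c j) = 1 :=
      ⟨fun h => hO.t j _ (gpz_mem X c j) h, fun h => hO.t _ j (gpz_mem' X c j) h⟩
    by_cases h3 : X.t j = 1
    · rw [if_pos h3, if_pos (h2.1 h3)]
    · rw [if_neg h3, if_neg (fun h => h3 (h2.2 h))]
  rw [Finset.sum_congr rfl (fun c _ => h1 c), Finset.sum_const, nsmul_eq_mul, Finset.card_univ,
    gpz_card X.prime]

/-- the variance identity -/
theorem gpz_var {ι : Type} [Fintype ι] (w : ι → ℂ) (n : ℝ) (hn : (Fintype.card ι : ℝ) = n) :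
    ∑ c, ‖(n : ℂ) * w c - ∑ c', w c'‖ ^ 2 = n * (n * ∑ c, ‖w c‖ ^ 2 - ‖∑ c, w c‖ ^ 2) := by
  have e : ∀ c, ‖(n : ℂ) * w c - ∑ c', w c'‖ ^ 2 = n ^ 2 * ‖w c‖ ^ 2 -
      2 * n * (w c * conj (∑ c', w c')).re + ‖∑ c', w c'‖ ^ 2 := by
    intro c
    rw [Complex.sq_norm, Complex.sq_norm, Complex.sq_norm, Complex.normSq_sub]
    simp only [map_mul, Complex.normSq_ofReal, Complex.conj_ofReal]
    have : ((n : ℂ) * w c * conj (∑ c', w c')).re = n * (w c * conj (∑ c', w c')).re := by
      rw [mul_assoc, Complex.re_ofReal_mul]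
    rw [this]
    ring
  rw [Finset.sum_congr rfl (fun c _ => e c), Finset.sum_add_distrib, Finset.sum_sub_distrib,
    ← Finset.mul_sum, ← Finset.mul_sum, Finset.sum_const, nsmul_eq_mul, Finset.card_univ, hn]
  have h2 : ∑ c, (w c * conj (∑ c', w c')).re = ‖∑ c', w c'‖ ^ 2 := by
    rw [← Complex.re_sum, ← Finset.sum_mul, Complex.mul_conj, Complex.ofReal_re, Complex.sq_norm]
  rw [h2]
  ring

theorem hGPZ : StGPZ := by
  intro hE4 hE2 hORB I _ _ p _ X Q hB a ha
  classical
  have hO := hORB I p X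
  have hp1 : (1 : ℝ) < p := by exact_mod_cast X.prime.one_lt
  have hpm : ((p : ℝ) - 1) ≠ 0 := by linarith
  have hcard := gpz_card X.prime
  obtain ⟨hya, hta, hao⟩ : X.y a ≠ 0 ∧ X.t a = 1 ∧ a ≠ X.o := by
    simpa [Ks] using ha
  set f : I → ℝ := fun i => ∑ c : (ZMod (p ^ 1))ˣ, (if X.pi c a = i then (1 : ℝ) else 0) with hf
  set u : I → ℂ := fun i => (((p : ℝ) - 1) * (if i = a then 1 else 0) - f i : ℝ) with hu
  -- values of f
  have hf1 : ∀ i, f i = ((Finset.univ.filter fun c => X.pi c a = i).card : ℝ) := by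
    intro i
    simp [hf]
  have hf0 : ∀ i, i ∉ Orb X a → f i = 0 := by
    intro i hi
    simp only [hf]
    apply Finset.sum_eq_zero
    intro c _
    rw [if_neg]
    intro h
    exact hi (h ▸ gpz_mem X c a)
  have hf2 : ∀ i ∈ Orb X a, f i = f a := by
    intro i hi
    rw [hf1, hf1, hO.fib a i hi]
  have hf3 : ((Orb X a).card : ℝ) * f a = (p : ℝ) - 1 := by
    have h := hO.card a
    rw [hf1]
    have h' : (((Orb X a).card * (Finset.univ.filter fun c => X.pi c a = a).card : ℕ) : ℝ) =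
        ((p - 1 : ℕ) : ℝ) := by rw [h]
    rw [Nat.cast_sub X.prime.one_le] at h'
    push_cast at h'
    exact h'
  have hr0 : ((Orb X a).card : ℝ) ≠ 0 := by
    have : 0 < (Orb X a).card := Finset.card_pos.2 ⟨a, hO.self a⟩
    exact_mod_cast this.ne'
  -- support
  have hsupp : ∀ i, u i ≠ 0 → X.t i = 1 := by
    intro i hi
    by_contra ht
    apply hi
    have h1 : i ≠ a := fun h => ht (h ▸ hta)
    have h2 : i ∉ Orb X a := fun h => ht (hO.t a i h hta)
    simp only [hu]
    rw [if_neg h1, hf0 i h2]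
    simp
  -- orbit sums
  have hsum : ∀ k, ∑ c, u (X.pi c k) = 0 := by
    intro k
    have e1 : ∑ c, u (X.pi c k) = ((((p : ℝ) - 1) * ∑ c, (if X.pi c k = a then (1 : ℝ) else 0) -
        ∑ c, f (X.pi c k) : ℝ) : ℂ) := by
      simp only [hu]
      rw [← Complex.ofReal_sum, Finset.sum_sub_distrib, Finset.mul_sum]
    rw [e1]
    have e2 : ∑ c, f (X.pi c k) = ((p : ℝ) - 1) * ∑ c : (ZMod (p ^ 1))ˣ,
        (if X.pi c k = a then (1 : ℝ) else 0) := by
      simp only [hf]
      rw [Finset.sum_comm]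
      have e3 : ∀ c' : (ZMod (p ^ 1))ˣ, ∑ c : (ZMod (p ^ 1))ˣ,
          (if X.pi c' a = X.pi c k then (1 : ℝ) else 0) =
          ∑ c : (ZMod (p ^ 1))ˣ, (if X.pi c k = a then (1 : ℝ) else 0) := by
        intro c'
        rw [← Equiv.sum_comp (Equiv.mulLeft c') (fun c : (ZMod (p ^ 1))ˣ =>
          if X.pi c' a = X.pi c k then (1 : ℝ) else 0)]
        apply Finset.sum_congr rfl
        intro c _
        simp only [Equiv.coe_mulLeft, X.pi_mul]
        have h4 : (X.pi c' a = X.pi c' (X.pi c k)) ↔ X.pi c k = a :=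
          ⟨fun h => ((hO.bij c').1 h).symm, fun h => by rw [h]⟩
        by_cases h5 : X.pi c k = a
        · rw [if_pos h5, if_pos (h4.2 h5)]
        · rw [if_neg h5, if_neg (fun h => h5 (h4.1 h))]
      rw [Finset.sum_congr rfl (fun c' _ => e3 c'), Finset.sum_const, nsmul_eq_mul, Finset.card_univ,
        hcard]
    rw [e2, sub_self, Complex.ofReal_zero]
  -- the norm of u
  have hnorm : ∑ k, ‖u k‖ ^ 2 = ((p : ℝ) - 1) ^ 2 * (1 - 1 / ((Orb X a).card : ℝ)) := by
    have e1 : ∀ k, ‖u k‖ ^ 2 = (if k = a then (((p : ℝ) - 1) ^ 2 - 2 * ((p : ℝ) - 1) * f a) else 0) +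
        f k ^ 2 := by
      intro k
      simp only [hu]
      rw [Complex.norm_real, Real.norm_eq_abs, sq_abs]
      by_cases hk : k = a
      · subst hk
        simp only [if_true]
        ring
      · simp only [if_neg hk]
        ring
    rw [Finset.sum_congr rfl (fun k _ => e1 k), Finset.sum_add_distrib,
      Finset.sum_ite_eq' Finset.univ a, if_pos (Finset.mem_univ a)]
    have e2 : ∑ k, f k ^ 2 = ((Orb X a).card : ℝ) * f a ^ 2 := by
      rw [← Finset.sum_subset (Finset.subset_univ (Orb X a))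
        (fun k _ hk => by rw [hf0 k hk]; ring),
        Finset.sum_congr rfl (fun k hk => by rw [hf2 k hk]), Finset.sum_const, nsmul_eq_mul]
    rw [e2]
    have e3 : f a = ((p : ℝ) - 1) / ((Orb X a).card : ℝ) := by
      rw [eq_div_iff hr0, mul_comm]; exact hf3
    rw [e3]
    field_simp
    ring
  -- E4
  have h4 := hE4 hE2 hORB I p X u hsupp hsum
  have hsu : ∀ j, ∑ k, X.s j k * u k = (((p : ℝ) - 1 : ℝ) : ℂ) * X.s a j - ∑ c, X.s a (X.pi c j) := by
    intro j
    have e1 : ∀ k, X.s j k * u k = (if k = a then (((p : ℝ) - 1 : ℝ) : ℂ) * X.s j k else 0) -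
        ∑ c : (ZMod (p ^ 1))ˣ, (if X.pi c a = k then X.s j k else 0) := by
      intro k
      simp only [hu, hf]
      push_cast
      rw [mul_sub, Finset.mul_sum]
      congr 1
      · by_cases hk : k = a
        · simp only [if_pos hk, Complex.ofReal_one, mul_one]; ring
        · simp only [if_neg hk, Complex.ofReal_zero, mul_zero]
      · apply Finset.sum_congr rfl
        intro c _
        by_cases hk : X.pi c a = k
        · simp only [if_pos hk, Complex.ofReal_one, mul_one]
        · simp only [if_neg hk, Complex.ofReal_zero, mul_zero]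
    rw [Finset.sum_congr rfl (fun k _ => e1 k), Finset.sum_sub_distrib,
      Finset.sum_ite_eq' Finset.univ a, if_pos (Finset.mem_univ a), Finset.sum_comm]
    congr 1
    · rw [X.s_symm j a]
    · apply Finset.sum_congr rfl
      intro c _
      rw [Finset.sum_ite_eq Finset.univ (X.pi c a), if_pos (Finset.mem_univ _), ← X.pi_s,
        X.s_symm]
  -- averaging
  set S : I → ℂ := fun j => ∑ c, X.s a (X.pi c j) with hS
  have hSinv : ∀ (c : (ZMod (p ^ 1))ˣ) (j : I), S (X.pi c j) = S j := by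
    intro c j
    simp only [hS]
    rw [← Equiv.sum_comp (Equiv.mulRight c) (fun c' : (ZMod (p ^ 1))ˣ => X.s a (X.pi c' j))]
    apply Finset.sum_congr rfl
    intro c' _
    simp only [Equiv.coe_mulRight, X.pi_mul]
  set G : I → ℝ := fun j => ‖(((p : ℝ) - 1 : ℝ) : ℂ) * X.s a j - S j‖ ^ 2 with hG
  set T : I → ℝ := fun l => ((p : ℝ) - 1) * ∑ c, ‖X.s a (X.pi c l)‖ ^ 2 -
    ‖∑ c, X.s a (X.pi c l)‖ ^ 2 with hT
  have h5 : (∑ j, if X.t j = 1 then G j else 0) = (p : ℝ) * ∑ k, ‖u k‖ ^ 2 := by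
    rw [← h4]
    apply Finset.sum_congr rfl
    intro j _
    rw [hsu j]
  have h6 : ∀ j, ∑ c, G (X.pi c j) = ((p : ℝ) - 1) * T j := by
    intro j
    have := gpz_var (fun c : (ZMod (p ^ 1))ˣ => X.s a (X.pi c j)) ((p : ℝ) - 1) hcard
    simp only [hG, hT]
    rw [← this]
    apply Finset.sum_congr rfl
    intro c _
    rw [hSinv]
  have h7 : (∑ j, if X.t j = 1 then T j else 0) = ∑ j, if X.t j = 1 then G j else 0 := by
    have h8 := gpz_avg X hO G
    rw [Finset.sum_comm] at h8
    have h9 : ∀ j, (∑ c, (if X.t j = 1 then G (X.pi c j) else 0)) =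
        ((p : ℝ) - 1) * (if X.t j = 1 then T j else 0) := by
      intro j
      by_cases hj : X.t j = 1
      · simp only [if_pos hj]
        exact h6 j
      · simp only [if_neg hj]
        simp
    rw [Finset.sum_congr rfl (fun j _ => h9 j), ← Finset.mul_sum] at h8
    exact mul_left_cancel₀ hpm h8
  have h10 : ∑ l ∈ Ks X, T l = ∑ j, if X.t j = 1 then T j else 0 := by
    rw [← Finset.sum_subset (Finset.subset_univ (Ks X))]
    · apply Finset.sum_congr rfl
      intro l hl
      have : X.t l = 1 := by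
        simp only [Ks, Finset.mem_filter, Finset.mem_univ, true_and] at hl
        exact hl.2.1
      rw [if_pos this]
    · intro l _ hl
      by_cases htl : X.t l = 1
      · rw [if_pos htl]
        have hl' : X.y l = 0 ∨ l = X.o := by
          by_contra hcon
          push Not at hcon
          apply hl
          simp only [Ks, Finset.mem_filter, Finset.mem_univ, true_and]
          exact ⟨hcon.1, htl, hcon.2⟩
        rcases hl' with h | h
        · have hz : ∀ c, X.s a (X.pi c l) = 0 := by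
            intro c
            apply hB.sup a _ hya
            rw [X.pi_y]
            exact h
          simp only [hT, hz]
          simp
        · subst h
          have hz : ∀ c, X.s a (X.pi c X.o) = X.y a := by
            intro c
            rw [X.pi_o, X.s_o]
          simp only [hT, hz, Finset.sum_const, nsmul_eq_mul, Finset.card_univ]
          rw [norm_mul]
          have hc2 : ‖((Fintype.card (ZMod (p ^ 1))ˣ : ℕ) : ℂ)‖ = (p : ℝ) - 1 := by
            rw [Complex.norm_natCast, hcard]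
          rw [hc2, hcard]
          ring
      · rw [if_neg htl]
  rw [h10, h7, h5, hnorm]
  ring

end Pool.Agent.Helper94.BRE.GPZ
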