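import Pool.Agent.Helper94.BRE.Defs
import Pool.Agent.Helper4.PQ0.M_MZZ
import Pool.Agent.Helper4.PQ0.M_HEC
import Pool.Agent.Helper4.PQ0.M_STL
import Pool.Agent.Helper4.PQ0.M_DRE
/-!
# Project OC, module KSS (helper7)

All orbits in `Kp X a` other than `Orb X w` are single points.
-/

set_option autoImplicit false

namespace Pool.Agent.Helper94.BRE.KSS

open Matrix ComplexConjugate Pool.Agent.Helper94.YG
open Pool.Agent.Helper94.YF hiding StORB
open Pool.Agent.Helper89.OS hiding PD Cx Blk B0 Orb StXA StXB StXC StXE StCGR StISO StBLK StAMG StHEC StSTL StMZZ StDRE StTSU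
open Pool.Agent.Helper89.OC hiding Ks gX OB Lk StORB StTS2 StLKD StTAN GA Kp Gam StGA2 StE2 StE4 StE3 StIB StRB StMXX StGPZ StGPP StKSS StLKN
open Pool.Agent.Helper4.PQ0 Pool.Agent.Helper94.BRE



theorem hKSS : StKSS := by
  intro hRB hIB hTS2 hORB hE3 hE2 hE4 I _ _ p _ X Q N a hG _ w hw hwg k hk hkw
  classical
  have hOB : OB X := hORB I p X
  have hR := hRB hIB hTS2 hORB hE3 hE2 hE4 I p X Q hG.blk
  -- unfold membership
  have hKs : ∀ j, j ∈ Ks X ↔ X.y j ≠ 0 ∧ X.t j = 1 ∧ j ≠ X.o := by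
    intro j
    simp only [Ks, Finset.mem_filter, Finset.mem_univ, true_and]
  have hKp : ∀ j, j ∈ Kp X a ↔ j ∈ Ks X ∧ j ∉ Orb X a := by
    intro j
    simp only [Kp, Finset.mem_filter]
  have hwK := ((hKp w).1 hw).1
  have hwa := ((hKp w).1 hw).2
  have hkK := ((hKp k).1 hk).1
  have hka := ((hKp k).1 hk).2
  have haK := hG.aK
  -- orbits are in Ks
  have hsub : ∀ b, b ∈ Ks X → ∀ j, j ∈ Orb X b → j ∈ Ks X := by
    intro b hb j hj
    obtain ⟨h1, h2, h3⟩ := (hKs b).1 hb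
    refine (hKs j).2 ⟨?_, hOB.t b j hj h2, ?_⟩
    · rw [hOB.y b j hj]; exact h1
    · intro hjo
      apply h3
      apply hOB.o b
      rw [← hjo]; exact hj
  have hpos : ∀ j, 1 ≤ (Orb X j).card := by
    intro j
    exact Finset.card_pos.2 ⟨j, hOB.self j⟩
  have hterm : ∀ j, (0 : ℝ) ≤ 1 - 1 / ((Orb X j).card : ℝ) := by
    intro j
    have h1 : (1 : ℝ) ≤ ((Orb X j).card : ℝ) := by exact_mod_cast hpos j
    have h2 : 1 / ((Orb X j).card : ℝ) ≤ 1 := by
      rw [div_le_one (by linarith)]; exact h1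
    linarith
  -- disjointness
  have hdis : Disjoint (Orb X a) (Orb X w) := by
    rw [Finset.disjoint_left]
    intro j hja hjw
    apply hwa
    rw [← hOB.eq a j hja, hOB.eq w j hjw]
    exact hOB.self w
  have hk1 : k ∉ Orb X a ∪ Orb X w := by
    rw [Finset.mem_union]
    rintro (h | h)
    · exact hka h
    · exact hkw h
  have hsubs : insert k (Orb X a ∪ Orb X w) ⊆ Ks X := by
    intro j hj
    rw [Finset.mem_insert, Finset.mem_union] at hj
    rcases hj with h | h | h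
    · rw [h]; exact hkK
    · exact hsub a haK j h
    · exact hsub w hwK j h
  have hle : ∑ j ∈ insert k (Orb X a ∪ Orb X w), (1 - 1 / ((Orb X j).card : ℝ)) ≤
      ∑ j ∈ Ks X, (1 - 1 / ((Orb X j).card : ℝ)) :=
    Finset.sum_le_sum_of_subset_of_nonneg hsubs (fun j _ _ => hterm j)
  rw [Finset.sum_insert hk1, Finset.sum_union hdis] at hle
  have hga : ((Orb X a).card : ℝ) = (gX X : ℝ) := by exact_mod_cast hG.aO
  have hgw : ((Orb X w).card : ℝ) = (gX X : ℝ) := by exact_mod_cast hwg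
  have hg1 : (1 : ℝ) ≤ (gX X : ℝ) := by
    rw [← hga]; exact_mod_cast hpos a
  have hsa : ∑ j ∈ Orb X a, (1 - 1 / ((Orb X j).card : ℝ)) = (gX X : ℝ) - 1 := by
    have h1 : ∀ j ∈ Orb X a, (1 - 1 / ((Orb X j).card : ℝ)) = 1 - 1 / (gX X : ℝ) := by
      intro j hj
      rw [hOB.eq a j hj, hga]
    rw [Finset.sum_congr rfl h1, Finset.sum_const, nsmul_eq_mul, hga]
    field_simp
  have hsw : ∑ j ∈ Orb X w, (1 - 1 / ((Orb X j).card : ℝ)) = (gX X : ℝ) - 1 := by
    have h1 : ∀ j ∈ Orb X w, (1 - 1 / ((Orb X j).card : ℝ)) = 1 - 1 / (gX X : ℝ) := by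
      intro j hj
      rw [hOB.eq w j hj, hgw]
    rw [Finset.sum_congr rfl h1, Finset.sum_const, nsmul_eq_mul, hgw]
    field_simp
  rw [hsa, hsw] at hle
  have hk2 : 1 - 1 / ((Orb X k).card : ℝ) ≤ 0 := by linarith
  by_contra hne
  have h2 : 2 ≤ (Orb X k).card := by
    have := hpos k
    omega
  have h3 : (2 : ℝ) ≤ ((Orb X k).card : ℝ) := by exact_mod_cast h2
  have h4 : 1 / ((Orb X k).card : ℝ) ≤ 1 / 2 := by
    apply one_div_le_one_div_of_le (by norm_num) h3
  linarith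

end Pool.Agent.Helper94.BRE.KSS
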