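import Pool.Agent.Helper94.BRE.Defs
import Pool.Agent.Helper4.PQ0.M_MZZ
import Pool.Agent.Helper4.PQ0.M_HEC
import Pool.Agent.Helper4.PQ0.M_STL
import Pool.Agent.Helper4.PQ0.M_DRE
/-!
# Project OC (MP_2b6189_al), module LKN: consequences of the link
-/

set_option autoImplicit false

namespace Pool.Agent.Helper94.BRE.LKN

open Matrix ComplexConjugate Pool.Agent.Helper94.YG
open Pool.Agent.Helper94.YF hiding StORB
open Pool.Agent.Helper89.OS hiding PD Cx Blk B0 Orb StXA StXB StXC StXE StCGR StISO StBLK StAMG StHEC StSTL StMZZ StDRE StTSU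
open Pool.Agent.Helper89.OC hiding Ks gX OB Lk StORB StTS2 StLKD StTAN GA Kp Gam StGA2 StE2 StE4 StE3 StIB StRB StMXX StGPZ StGPP StKSS StLKN
open Pool.Agent.Helper4.PQ0 Pool.Agent.Helper94.BRE



theorem hLKN : StLKN := by
  intro I _ _ Z p b X hL
  obtain ⟨hU, hthL, htadd, ht0, -, hto, -, hLoN, hLosym, -, -⟩ :=
    Pool.Agent.Helper36.YF.hFUS Pool.Agent.Helper88.YF.hDUA I Z.toCentreRep
  obtain ⟨-, -, -, -, -, hrst⟩ := Pool.Agent.Helper88.YF.hDUA I Z.toCentreRep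
  obtain ⟨j, tu, hj, htu, htum⟩ := Pool.Agent.Helper24.OS.hJTU Z.L p 1 b X.prime hL.idp
  have hSm := (Pool.Agent.Helper19.OS.hGRP Z.L (p ^ 1) b j tu hL.idp.idem hj htu htum).2.1
  obtain ⟨hsym, hint⟩ := Pool.Agent.Helper33.OS.hENT Pool.Agent.Helper36.YF.hFUS
    Pool.Agent.Helper88.YF.hDUA I Z.toCentreRep (1 - b)
  have hs : ∀ i k, X.s i k = (p : ℂ) * Z.rho (s2 b) i k := fun i k => by rw [hL.s]
  have hent : ∀ i k, Z.rho (s2 b) i k = Z.tw (-b) i * Z.rho (Lo b) i k * Z.tw (-b) k := by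
    intro i k
    unfold s2
    rw [map_mul, map_mul, hU, Matrix.mul_diagonal, Matrix.diagonal_mul]
  have hinv : ∀ l, Z.tw b l * Z.tw (-b) l = 1 := by
    intro l
    rw [← htadd, add_neg_cancel, ht0]
  have hty : ∀ l, X.t l * (X.y l : ℂ) = (p : ℂ) * Z.rho (Lo b) l Z.o := by
    intro l
    rw [← X.s_o, hs, hL.t, hL.o, hent, hto (-b)]
    linear_combination ((p : ℂ) * Z.rho (Lo b) l Z.o) * hinv l
  refine ⟨fun i k => ?_, fun i k => ?_⟩
  · have h1 : X.s i k * (X.t i * X.t k) = (p : ℂ) * Z.rho (Lo b) i k := by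
      rw [hs, hL.t, hent]
      linear_combination ((p : ℂ) * Z.rho (Lo b) i k * (Z.tw b k * Z.tw (-b) k)) * hinv i +
        ((p : ℂ) * Z.rho (Lo b) i k) * hinv k
    rw [h1, hLoN b i k, Finset.mul_sum]
    refine Finset.sum_congr rfl fun l _ => ?_
    rw [hty l, hL.N, hL.st]
    ring
  · rw [hs, hs, hL.st, hrst]

end Pool.Agent.Helper94.BRE.LKN
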