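import Pool.Agent.Helper94.BRE.Defs
import Pool.Agent.Helper4.PQ0.M_MZZ
import Pool.Agent.Helper4.PQ0.M_HEC
import Pool.Agent.Helper4.PQ0.M_STL
import Pool.Agent.Helper4.PQ0.M_DRE
import Pool.Agent.Helper94.BRE.M_MUK
/-!
# OC MODULE RB (MP_2b6189_al): the rank bound
-/

set_option autoImplicit false

namespace Pool.Agent.Helper94.BRE.RB

open Matrix ComplexConjugate Pool.Agent.Helper94.YG
open Pool.Agent.Helper94.YF hiding StORB
open Pool.Agent.Helper89.OS hiding PD Cx Blk B0 Orb StXA StXB StXC StXE StCGR StISO StBLK StAMG StHEC StSTL StMZZ StDRE StTSU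
open Pool.Agent.Helper89.OC hiding Ks gX OB Lk StORB StTS2 StLKD StTAN GA Kp Gam StGA2 StE2 StE4 StE3 StIB StRB StMXX StGPZ StGPP StKSS StLKN
open Pool.Agent.Helper4.PQ0 Pool.Agent.Helper94.BRE



section

variable {I : Type} [Fintype I] [DecidableEq I] {p : ℕ}

theorem mem_Ks (X : PD I p 1) (k : I) :
    k ∈ Ks X ↔ X.y k ≠ 0 ∧ X.t k = 1 ∧ k ≠ X.o := by
  simp only [Ks, Finset.mem_filter, Finset.mem_univ, true_and]

theorem row_total (X : PD I p 1) (k : I) : ∑ j, ‖X.s k j‖ ^ 2 = (p : ℝ) ^ 2 := by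
  have h := X.s_uni k k
  rw [if_pos rfl] at h
  apply Complex.ofReal_injective
  push_cast
  rw [← h]
  refine Finset.sum_congr rfl fun j _ => ?_
  rw [Complex.mul_conj']

theorem s_o' (X : PD I p 1) (k : I) : X.s X.o k = X.y k := by
  rw [X.s_symm, X.s_o]

theorem sum_yy (X : PD I p 1) : ∑ j, (X.y j : ℝ) ^ 2 = (p : ℝ) ^ 2 := by
  rw [← row_total X X.o]
  refine Finset.sum_congr rfl fun j _ => ?_
  rw [s_o', Complex.norm_intCast, sq_abs]

open Classical in
/-- the part `t ≠ 1` of the row `k` -/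
noncomputable def A2 (X : PD I p 1) (k : I) : ℝ :=
  ∑ j, if X.t j = 1 then 0 else ‖X.s k j‖ ^ 2

open Classical in
theorem A2_eq [NeZero p] (X : PD I p 1) (k : I) (htk : X.t k = 1) (S : ℝ)
    (hS : ∑ c, X.s k (X.pi c k) = (S : ℂ)) : A2 X k = (p : ℝ) ^ 2 - p - S := by
  have h1 : (∑ j, if X.t j = 1 then ‖X.s k j‖ ^ 2 else 0) = (p : ℝ) + S := by
    have h12 := MUK.part_a X k htk
    rw [hS] at h12
    apply Complex.ofReal_injective
    rw [Complex.ofReal_sum]
    have h14 : ∀ j ∈ (Finset.univ : Finset I),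
        (((if X.t j = 1 then ‖X.s k j‖ ^ 2 else 0 : ℝ)) : ℂ) =
          if X.t j = 1 then ((‖X.s k j‖ ^ 2 : ℝ) : ℂ) else 0 := by
      intro j _
      split_ifs
      · rfl
      · exact Complex.ofReal_zero
    rw [Finset.sum_congr rfl h14, h12]
    push_cast
    rfl
  have h2 : A2 X k + (∑ j, if X.t j = 1 then ‖X.s k j‖ ^ 2 else 0) = (p : ℝ) ^ 2 := by
    rw [← row_total X k, A2, ← Finset.sum_add_distrib]
    refine Finset.sum_congr rfl fun j _ => ?_
    split_ifs <;> ring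
  linarith

open Classical in
theorem sum_y_ne (X : PD I p 1) (hx : ¬ (p : ℤ) ∣ X.y X.o) :
    (∑ j, if X.t j = 1 then 0 else (X.y j : ℝ) ^ 2) = ((p : ℝ) - 1) * (gX X : ℝ) := by
  have h1 := (MZZ.hMZZ I p X hx).2.1
  have h2 : (∑ j, if X.t j = 1 then (X.y j : ℝ) ^ 2 else 0) =
      (p : ℝ) + (p - 1) * (X.y X.o : ℝ) := by
    exact_mod_cast congrArg (fun z : ℤ => (z : ℝ)) h1
  have h3 : (∑ j, if X.t j = 1 then 0 else (X.y j : ℝ) ^ 2) +
      (∑ j, if X.t j = 1 then (X.y j : ℝ) ^ 2 else 0) = (p : ℝ) ^ 2 := by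
    rw [← sum_yy X, ← Finset.sum_add_distrib]
    refine Finset.sum_congr rfl fun j _ => ?_
    split_ifs <;> ring
  have h4 : (gX X : ℝ) = (p : ℝ) - X.y X.o := by
    simp [gX]
  rw [h4]
  linear_combination h3 - h2

theorem sum_Ks_y (X : PD I p 1) (hx : ¬ (p : ℤ) ∣ X.y X.o) :
    ∑ k ∈ Ks X, (X.y k : ℝ) ^ 2 = (gX X : ℝ) * (p + 1 - gX X) := by
  classical
  have h1 := (MZZ.hMZZ I p X hx).2.1
  have h2 : (∑ j, if X.t j = 1 then (X.y j : ℝ) ^ 2 else 0) =
      (p : ℝ) + (p - 1) * (X.y X.o : ℝ) := by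
    exact_mod_cast congrArg (fun z : ℤ => (z : ℝ)) h1
  have h3 : (∑ j, if X.t j = 1 then (X.y j : ℝ) ^ 2 else 0) =
      (X.y X.o : ℝ) ^ 2 + ∑ k ∈ Ks X, (X.y k : ℝ) ^ 2 := by
    rw [← Finset.sum_insert (s := Ks X) (a := X.o) (f := fun k => (X.y k : ℝ) ^ 2)
      (fun h => ((mem_Ks X _).1 h).2.2 rfl)]
    symm
    rw [← Finset.sum_filter]
    refine Finset.sum_subset ?_ ?_
    · intro k hk
      rcases Finset.mem_insert.1 hk with rfl | hk
      · exact Finset.mem_filter.2 ⟨Finset.mem_univ _, X.t_o⟩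
      · exact Finset.mem_filter.2 ⟨Finset.mem_univ _, ((mem_Ks X _).1 hk).2.1⟩
    · intro k hk hk'
      have hy : X.y k = 0 := by
        by_contra hy
        apply hk'
        by_cases hko : k = X.o
        · rw [hko]
          exact Finset.mem_insert_self _ _
        · exact Finset.mem_insert_of_mem
            ((mem_Ks X _).2 ⟨hy, (Finset.mem_filter.1 hk).2, hko⟩)
      rw [hy]
      simp
  have h4 : (gX X : ℝ) = (p : ℝ) - X.y X.o := by
    simp [gX]
  rw [h4]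
  linear_combination h2 - h3

theorem A2_o [NeZero p] (X : PD I p 1) (hx : ¬ (p : ℤ) ∣ X.y X.o) : A2 X X.o = ((p : ℝ) - 1) * (gX X : ℝ) := by
  classical
  rw [← sum_y_ne X hx, A2]
  refine Finset.sum_congr rfl fun j _ => ?_
  rw [s_o', Complex.norm_intCast, sq_abs]

theorem A2_Ks [NeZero p] (hTS2 : StTS2) (hORB : StORB) (X : PD I p 1) (Q : ℂ → Prop)
    (hB : Blk X Q) (hg : (gX X : ℝ) ≠ 0) (k : I) (hk : k ∈ Ks X) :
    A2 X k = ((p : ℝ) - 1) * (p * (1 - 1 / ((Orb X k).card : ℝ)) +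
      (X.y k : ℝ) ^ 2 / (gX X : ℝ)) := by
  classical
  obtain ⟨hyk, htk, hko⟩ := (mem_Ks X k).1 hk
  have hO := hORB I p X
  have h1 := (hTS2 hORB I p X Q hB k hk).1 k
  have hkO := hO.self k
  have hr : ((Orb X k).card : ℝ) ≠ 0 := by
    have : 0 < (Orb X k).card := Finset.card_pos.2 ⟨k, hkO⟩
    exact_mod_cast this.ne'
  have hrC : ((Orb X k).card : ℂ) ≠ 0 := by exact_mod_cast hr
  have hgC : (gX X : ℂ) ≠ 0 := by exact_mod_cast hg
  rw [if_pos hkO, if_neg hko, mul_zero, add_zero, mul_one] at h1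
  have h2 : ∑ l, X.s k l * ((gX X : ℂ) * (if l ∈ Orb X k then 1 else 0) +
      ((Orb X k).card : ℂ) * X.y k * (if l = X.o then 1 else 0)) =
      (gX X : ℂ) * ∑ l ∈ Orb X k, X.s k l + ((Orb X k).card : ℂ) * X.y k * X.y k := by
    have h3 : ∀ l, X.s k l * ((gX X : ℂ) * (if l ∈ Orb X k then 1 else 0) +
        ((Orb X k).card : ℂ) * X.y k * (if l = X.o then 1 else 0)) =
        (if l ∈ Orb X k then (gX X : ℂ) * X.s k l else 0) +
          (if l = X.o then ((Orb X k).card : ℂ) * X.y k * X.s k l else 0) := by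
      intro l
      split_ifs <;> ring
    simp only [h3]
    rw [Finset.sum_add_distrib, ← Finset.sum_filter, Finset.filter_mem_eq_inter,
      Finset.univ_inter, ← Finset.mul_sum, Finset.sum_ite_eq' Finset.univ X.o,
      if_pos (Finset.mem_univ _), X.s_o]
  rw [h2] at h1
  have h4 := hO.sum k (fun i => X.s k i)
  have h5 : ∑ c, X.s k (X.pi c k) = (((((p : ℝ) - 1) * (p / ((Orb X k).card : ℝ) -
      (X.y k : ℝ) ^ 2 / (gX X : ℝ)) : ℝ)) : ℂ) := by
    push_cast
    have h6 : ((Orb X k).card : ℂ) * (gX X : ℂ) * ∑ c, X.s k (X.pi c k) =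
        ((p : ℂ) - 1) * (p * gX X - ((Orb X k).card : ℂ) * X.y k * X.y k) := by
      linear_combination (gX X : ℂ) * h4 + ((p : ℂ) - 1) * h1
    field_simp
    linear_combination h6
  rw [A2_eq X k htk _ h5]
  field_simp
  ring

end

theorem hRB : StRB := by
  classical
  intro hIB hTS2 hORB hE3 hE2 hE4 I _ _ p _ X Q hB
  have hM := MZZ.hMZZ I p X hB.x_nd
  have hg2 : (1 : ℝ) ≤ (gX X : ℝ) := by
    have : (1 : ℤ) ≤ gX X := hM.2.2.2.2.1
    exact_mod_cast this
  have hg0 : (gX X : ℝ) ≠ 0 := by linarith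
  have hp1 : (1 : ℝ) < (p : ℝ) := by exact_mod_cast X.prime.one_lt
  have hyo : X.y X.o ≠ 0 := by
    intro h
    apply hB.x_nd
    rw [h]
    exact dvd_zero _
  have hoK : X.o ∉ Ks X := fun h => ((mem_Ks X _).1 h).2.2 rfl
  -- the left side
  have hL : ∑ k ∈ insert X.o (Ks X), A2 X k = ((p : ℝ) - 1) *
      (p * ∑ k ∈ Ks X, (1 - 1 / ((Orb X k).card : ℝ)) + p + 1) := by
    rw [Finset.sum_insert hoK, A2_o X hB.x_nd,
      Finset.sum_congr rfl fun k hk => A2_Ks hTS2 hORB X Q hB hg0 k hk,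
      ← Finset.mul_sum, Finset.sum_add_distrib, ← Finset.mul_sum, ← Finset.sum_div,
      sum_Ks_y X hB.x_nd, mul_div_cancel_left₀ _ hg0]
    ring
  -- the right side
  have hR : ∑ k ∈ insert X.o (Ks X), A2 X k ≤
      (2 * (p : ℝ) - ((p : ℝ) - 1) / (gX X : ℝ)) * (((p : ℝ) - 1) * (gX X : ℝ)) := by
    have h1 : ∑ k ∈ insert X.o (Ks X), A2 X k =
        ∑ b, if X.t b = 1 then 0 else ∑ k ∈ insert X.o (Ks X), ‖X.s b k‖ ^ 2 := by
      simp only [A2]
      rw [Finset.sum_comm]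
      refine Finset.sum_congr rfl fun b _ => ?_
      split_ifs with h
      · exact Finset.sum_const_zero
      · exact Finset.sum_congr rfl fun k _ => by rw [X.s_symm]
    rw [h1, ← sum_y_ne X hB.x_nd, Finset.mul_sum]
    refine Finset.sum_le_sum fun b _ => ?_
    by_cases htb : X.t b = 1
    · rw [if_pos htb, if_pos htb, mul_zero]
    rw [if_neg htb, if_neg htb]
    by_cases hyb : X.y b = 0
    · rw [hyb]
      have h2 : ∀ k ∈ insert X.o (Ks X), ‖X.s b k‖ ^ 2 = 0 := by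
        intro k hk
        have hyk : X.y k ≠ 0 := by
          rcases Finset.mem_insert.1 hk with rfl | hk
          · exact hyo
          · exact ((mem_Ks X _).1 hk).1
        rw [X.s_symm, hB.sup k b hyk hyb]
        simp
      rw [Finset.sum_congr rfl h2]
      simp
    · have h3 : ∑ k ∈ insert X.o (Ks X), ‖X.s b k‖ ^ 2 ≤
          ∑ k, if X.t k = 1 then ‖X.s b k‖ ^ 2 else 0 := by
        have h4 : ∑ k ∈ insert X.o (Ks X), ‖X.s b k‖ ^ 2 =
            ∑ k ∈ insert X.o (Ks X), if X.t k = 1 then ‖X.s b k‖ ^ 2 else 0 := by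
          refine Finset.sum_congr rfl fun k hk => ?_
          have : X.t k = 1 := by
            rcases Finset.mem_insert.1 hk with rfl | hk
            · exact X.t_o
            · exact ((mem_Ks X _).1 hk).2.1
          rw [if_pos this]
        rw [h4]
        refine Finset.sum_le_sum_of_subset_of_nonneg (Finset.subset_univ _) fun j _ _ => ?_
        split_ifs
        · positivity
        · exact le_refl 0
      have h5 := hIB hE3 hE2 hE4 hORB I p X hB.x_nd b htb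
      have h6 : (1 : ℝ) ≤ (X.y b : ℝ) ^ 2 := by
        have : (1 : ℤ) ≤ X.y b ^ 2 := by
          have : 0 < X.y b ^ 2 := by positivity
          omega
        exact_mod_cast this
      have h7 : 2 * (p : ℝ) - ((p : ℝ) - 1) * (X.y b : ℝ) ^ 2 / (gX X : ℝ) ≤
          (2 * (p : ℝ) - ((p : ℝ) - 1) / (gX X : ℝ)) * (X.y b : ℝ) ^ 2 := by
        have h8 : 2 * (p : ℝ) ≤ 2 * (p : ℝ) * (X.y b : ℝ) ^ 2 :=
          le_mul_of_one_le_right (by linarith) h6
        have h9 : ((p : ℝ) - 1) * (X.y b : ℝ) ^ 2 / (gX X : ℝ) =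
            ((p : ℝ) - 1) / (gX X : ℝ) * (X.y b : ℝ) ^ 2 := by ring
        rw [h9]
        linarith
      exact h3.trans (h5.trans h7)
  rw [hL] at hR
  have h10 : (2 * (p : ℝ) - ((p : ℝ) - 1) / (gX X : ℝ)) * (((p : ℝ) - 1) * (gX X : ℝ)) =
      ((p : ℝ) - 1) * (2 * p * gX X - (p - 1)) := by
    field_simp
  rw [h10] at hR
  have h11 := le_of_mul_le_mul_left hR (by linarith)
  have h12 : (p : ℝ) * ∑ k ∈ Ks X, (1 - 1 / ((Orb X k).card : ℝ)) ≤
      p * (2 * (gX X : ℝ) - 2) := by linarith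
  exact le_of_mul_le_mul_left h12 (by linarith)

end Pool.Agent.Helper94.BRE.RB
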