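import Pool.Agent.Helper94.BRE.Defs
import Pool.Agent.Helper4.PQ0.M_MZZ
import Pool.Agent.Helper4.PQ0.M_HEC
import Pool.Agent.Helper4.PQ0.M_STL
import Pool.Agent.Helper4.PQ0.M_DRE
import Pool.Agent.Helper94.BRE.M_RB
/-!
# AL MODULE RBE (MP_2b6189_al): the rank bound with its defect
-/

set_option autoImplicit false

namespace Pool.Agent.Helper94.BRE.RBE

open Matrix ComplexConjugate Pool.Agent.Helper94.YG
open Pool.Agent.Helper94.YF hiding StORB
open Pool.Agent.Helper89.OS hiding PD Cx Blk B0 Orb StXA StXB StXC StXE StCGR StISO StBLK StAMG StHEC StSTL StMZZ StDRE StTSU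
open Pool.Agent.Helper89.OC hiding Ks gX OB Lk StORB StTS2 StLKD StTAN GA Kp Gam StGA2 StE2 StE4 StE3 StIB StRB StMXX StGPZ StGPP StKSS StLKN
open Pool.Agent.Helper4.PQ0 Pool.Agent.Helper94.BRE
open RB



theorem hRBE : StRBE := by
  classical
  intro hIB hTS2 hORB hE3 hE2 hE4 I _ _ p _ X Q hB
  have hM := MZZ.hMZZ I p X hB.x_nd
  have hg2 : (1 : ℝ) ≤ (gX X : ℝ) := by
    have : (1 : ℤ) ≤ gX X := hM.2.2.2.2.1
    exact_mod_cast this
  have hg0 : (gX X : ℝ) ≠ 0 := by linarith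
  have hyo : X.y X.o ≠ 0 := by
    intro h
    apply hB.x_nd
    rw [h]
    exact dvd_zero _
  have hoK : X.o ∉ Ks X := fun h => ((mem_Ks X _).1 h).2.2 rfl
  have hL : ∑ k ∈ insert X.o (Ks X), A2 X k = ((p : ℝ) - 1) *
      (p * ∑ k ∈ Ks X, (1 - 1 / ((Orb X k).card : ℝ)) + p + 1) := by
    rw [Finset.sum_insert hoK, A2_o X hB.x_nd,
      Finset.sum_congr rfl fun k hk => A2_Ks hTS2 hORB X Q hB hg0 k hk,
      ← Finset.mul_sum, Finset.sum_add_distrib, ← Finset.mul_sum, ← Finset.sum_div,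
      sum_Ks_y X hB.x_nd, mul_div_cancel_left₀ _ hg0]
    ring
  have hR : ∑ k ∈ insert X.o (Ks X), A2 X k ≤
      ∑ b, ((if X.y b ≠ 0 ∧ X.t b ≠ 1 then 2 * (p : ℝ) else 0) -
        ((p : ℝ) - 1) / (gX X : ℝ) * (if X.t b = 1 then 0 else (X.y b : ℝ) ^ 2)) := by
    have h1 : ∑ k ∈ insert X.o (Ks X), A2 X k =
        ∑ b, if X.t b = 1 then 0 else ∑ k ∈ insert X.o (Ks X), ‖X.s b k‖ ^ 2 := by
      simp only [A2]
      rw [Finset.sum_comm]
      refine Finset.sum_congr rfl fun b _ => ?_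
      split_ifs with h
      · exact Finset.sum_const_zero
      · exact Finset.sum_congr rfl fun k _ => by rw [X.s_symm]
    rw [h1]
    refine Finset.sum_le_sum fun b _ => ?_
    by_cases htb : X.t b = 1
    · rw [if_pos htb, if_pos htb, mul_zero, if_neg (fun h => h.2 htb), sub_zero]
    rw [if_neg htb, if_neg htb]
    by_cases hyb : X.y b = 0
    · rw [if_neg (fun h => h.1 hyb), hyb]
      have h2 : ∀ k ∈ insert X.o (Ks X), ‖X.s b k‖ ^ 2 = 0 := by
        intro k hk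
        have hyk : X.y k ≠ 0 := by
          rcases Finset.mem_insert.1 hk with rfl | hk
          · exact hyo
          · exact ((mem_Ks X _).1 hk).1
        rw [X.s_symm, hB.sup k b hyk hyb]
        simp
      rw [Finset.sum_congr rfl h2]
      simp
    · rw [if_pos ⟨hyb, htb⟩]
      have h3 : ∑ k ∈ insert X.o (Ks X), ‖X.s b k‖ ^ 2 ≤
          ∑ k, if X.t k = 1 then ‖X.s b k‖ ^ 2 else 0 := by
        have h4 : ∑ k ∈ insert X.o (Ks X), ‖X.s b k‖ ^ 2 =
            ∑ k ∈ insert X.o (Ks X), if X.t k = 1 then ‖X.s b k‖ ^ 2 else 0 := by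
          refine Finset.sum_congr rfl fun k hk => ?_
          have : X.t k = 1 := by
            rcases Finset.mem_insert.1 hk with rfl | hk
            · exact X.t_o
            · exact ((mem_Ks X _).1 hk).2.1
          rw [if_pos this]
        rw [h4]
        refine Finset.sum_le_sum_of_subset_of_nonneg (Finset.subset_univ _) fun j _ _ => ?_
        split_ifs
        · positivity
        · exact le_refl 0
      have h5 := hIB hE3 hE2 hE4 hORB I p X hB.x_nd b htb
      refine (h3.trans h5).trans (le_of_eq ?_)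
      ring
  have h6 : ((p : ℝ) - 1) / (gX X : ℝ) * (((p : ℝ) - 1) * (gX X : ℝ)) = ((p : ℝ) - 1) ^ 2 := by
    field_simp
  have h7 : ∑ b, ((if X.y b ≠ 0 ∧ X.t b ≠ 1 then 2 * (p : ℝ) else 0) -
      ((p : ℝ) - 1) / (gX X : ℝ) * (if X.t b = 1 then 0 else (X.y b : ℝ) ^ 2)) =
      2 * (p : ℝ) * ((Finset.univ.filter fun b => X.y b ≠ 0 ∧ X.t b ≠ 1).card : ℝ) -
        ((p : ℝ) - 1) ^ 2 := by
    rw [Finset.sum_sub_distrib, ← Finset.mul_sum, sum_y_ne X hB.x_nd, ← Finset.sum_filter,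
      Finset.sum_const, nsmul_eq_mul, h6]
    ring
  rw [hL, h7] at hR
  linarith

end Pool.Agent.Helper94.BRE.RBE
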