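import Pool.Agent.Helper94.BRE.M_EQY
import Pool.Agent.Helper94.BRE.M_RBE
import Pool.Agent.Helper94.BRE.M_GPP
import Pool.Agent.Helper94.BRE.M_GPZ
import Pool.Agent.Helper94.BRE.M_MXX
import Pool.Agent.Helper94.BRE.M_KSS
import Pool.Agent.Helper94.BRE.M_GA2
import Pool.Agent.Helper94.BRE.M_LKN
import Pool.Agent.Helper94.BRE.M_IB
import Pool.Agent.Helper94.BRE.M_E3
import Pool.Agent.Helper94.BRE.M_E4
import Pool.Agent.Helper94.BRE.M_E2
import Pool.Agent.Helper3.OC.M_PRV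
import Pool.Agent.Helper33.OC.M_CMM
import Pool.Agent.Helper4.PQ0.M_TS2
import Pool.Agent.Helper4.PQ0.M_ORB
import Pool.Agent.Helper4.PQ0.M_TSU
import Pool.Agent.Helper4.PQ0.E1
import Pool.Agent.Helper52.PN.Num
import Pool.Agent.Helper89.MG.Cop

/-! # Project BRE (MP_2b6189_al): the main case `a = 1`, any parity: assembly -/

set_option autoImplicit false

namespace Pool.Agent.Helper94.BRE

open Matrix ComplexConjugate Pool.Agent.Helper94.YG
open Pool.Agent.Helper94.YF hiding StORB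
open Pool.Agent.Helper89.OS hiding PD Cx Blk B0 Orb StXA StXB StXC StXE StCGR StISO StBLK StAMG StHEC StSTL StMZZ StDRE StTSU
open Pool.Agent.Helper89.OC hiding Ks gX OB Lk StORB StTS2 StLKD StTAN GA Kp Gam StGA2 StE2 StE4 StE3 StIB StRB StMXX StGPZ StGPP StKSS StLKN
open Pool.Agent.Helper4.PQ0 Pool.Agent.Helper89.MG Pool.Agent.Helper52.PN

variable {I : Type} [Fintype I] [DecidableEq I]

theorem mKs {p : ℕ} {X : PD I p 1} {k : I} : k ∈ Ks X ↔ X.y k ≠ 0 ∧ X.t k = 1 ∧ k ≠ X.o := by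
  simp [Ks]

/-- The data common to `g = 1` and `g ≥ 2`. -/
structure Cm (Z : CentreData I) {p : ℕ} (b : ZMod Z.L) (X : PD I p 1) (Q : ℂ → Prop) (N : ℕ)
    (D : ℤ) : Prop where
  lk : Lk Z b X
  blk : Blk X Q
  hno : ¬ ∃ D : I → Prop, TanSet Z D
  pN : (p : ℤ) - 1 = N * gX X
  gD : gX X * D = p * X.z X.o - 1
  Dm : D ∣ X.m
  one : ∃ b0, X.y b0 ≠ 0 ∧ X.t b0 ≠ 1 ∧ X.y b0 ^ 2 = 1

/-- A torus fixed element. -/
structure Sg {p : ℕ} (X : PD I p 1) (v : I) (w : ℤ) : Prop where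
  mem : v ∈ Ks X
  orb : Orb X v = {v}
  y : X.y v = gX X * w

section

variable {Z : CentreData I} {p : ℕ} [NeZero p] {b : ZMod Z.L} {X : PD I p 1} {Q : ℂ → Prop}
  {N : ℕ} {D : ℤ}

theorem Cm.g1 (h : Cm Z b X Q N D) : 1 ≤ gX X := (MZZ.hMZZ I p X h.blk.x_nd).2.2.2.2.1

theorem Cm.gp (h : Cm Z b X Q N D) : ¬ (p : ℤ) ∣ gX X := by
  intro h1
  apply h.blk.x_nd
  have h2 : X.y X.o = p - gX X := by
    show X.y X.o = p - (p - X.y X.o)
    ring
  rw [h2]
  exact dvd_sub (dvd_refl _) h1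

theorem Cm.DN (h : Cm Z b X Q N D) : (p : ℤ) ∣ D - N := by
  have hpp : Prime (p : ℤ) := Nat.prime_iff_prime_int.1 X.prime
  have h1 : (p : ℤ) ∣ gX X * (D - N) := by
    refine ⟨X.z X.o - 1, ?_⟩
    have h2 := h.pN
    have h3 := h.gD
    linear_combination h3 + h2
  exact (hpp.dvd_or_dvd h1).resolve_left h.gp

theorem Cm.w0 (_h : Cm Z b X Q N D) {v : I} {w : ℤ} (hv : Sg X v w) : w ≠ 0 := by
  rintro rfl
  apply (mKs.1 hv.mem).1
  rw [hv.y, mul_zero]

theorem Cm.th1 (h : Cm Z b X Q N D) {v : I} (hv : v ∈ Ks X) : v ≠ Z.o ∧ Z.th v = 1 := by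
  obtain ⟨h1, h2, h3⟩ := mKs.1 hv
  refine ⟨by rw [← h.lk.o]; exact h3, ?_⟩
  have := X.th_of v h1 h2
  rwa [h.lk.th] at this

theorem Cm.d1 (h : Cm Z b X Q N D) {v : I} (hv : v ∈ Ks X) : 1 < X.d v := by
  by_contra h1
  have h2 := X.d_pos v
  have h3 : X.d v = 1 := by omega
  rw [h.lk.d] at h3
  obtain ⟨h4, h5⟩ := h.th1 hv
  exact h.hno (boson Z v h4 h3 h5)

theorem Cm.pd (h : Cm Z b X Q N D) {v : I} (hv : v ∈ Ks X) : ¬ p ∣ X.d v :=
  h.blk.d_nd v (mKs.1 hv).1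

theorem Cm.dm (h : Cm Z b X Q N D) {v : I} (hv : v ∈ Ks X) : X.d v ∣ X.m := by
  have h1 := X.d_dvd v
  exact ((Nat.Prime.coprime_iff_not_dvd X.prime).2 (h.pd hv)).symm.dvd_of_dvd_mul_left h1

theorem Cm.g0 (h : Cm Z b X Q N D) : gX X ≠ 0 := by
  have := h.g1
  omega

theorem Cm.F (h : Cm Z b X Q N D) {v : I} {w : ℤ} (hv : Sg X v w) :
    (X.d v : ℤ) = p * (X.z X.o * w + X.z v) - w := by
  obtain ⟨hD1, -, -, -⟩ := DRE.hDRE STL.hSTL HEC.hHEC MZZ.hMZZ I p X Q h.blk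
  obtain ⟨h1, h2, h3⟩ := mKs.1 hv.mem
  have h4 := hD1 v h1 h2 h3
  have hg : (p : ℤ) - X.y X.o = gX X := rfl
  rw [hg, hv.y] at h4
  apply mul_left_cancel₀ h.g0
  rw [h4]
  ring

theorem Cm.fix (h : Cm Z b X Q N D) {v : I} {w : ℤ} (hv : Sg X v w) : Fix Z b v w := by
  intro i
  have h1 := (TS2.hTS2 ORB.hORB I p X Q h.blk v hv.mem).1 i
  have hp0 : (p : ℂ) ≠ 0 := by exact_mod_cast X.prime.ne_zero
  have hg0 : (gX X : ℂ) ≠ 0 := by exact_mod_cast h.g0
  rw [hv.orb, Finset.card_singleton, hv.y] at h1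
  have h2 : ∀ l, X.s i l * ((gX X : ℂ) * (if l ∈ ({v} : Finset I) then 1 else 0) +
      ((1 : ℕ) : ℂ) * ((gX X * w : ℤ) : ℂ) * (if l = X.o then 1 else 0)) =
      (if l = v then (gX X : ℂ) * X.s i l else 0) +
        (if l = X.o then ((gX X * w : ℤ) : ℂ) * X.s i l else 0) := by
    intro l
    simp only [Finset.mem_singleton]
    split_ifs <;> push_cast <;> ring
  rw [Finset.sum_congr rfl (fun l _ => h2 l), Finset.sum_add_distrib,
    Finset.sum_ite_eq' Finset.univ v, if_pos (Finset.mem_univ _),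
    Finset.sum_ite_eq' Finset.univ X.o, if_pos (Finset.mem_univ _), h.lk.s, h.lk.o] at h1
  simp only [Finset.mem_singleton] at h1
  apply mul_left_cancel₀ hp0
  apply mul_left_cancel₀ hg0
  push_cast at h1
  linear_combination h1

theorem Cm.rne (h : Cm Z b X Q N D) {v : I} (hv : X.y v ≠ 0) : Z.rho (s2 b) v Z.o ≠ 0 := by
  intro h1
  apply hv
  have h2 := X.s_o v
  rw [h.lk.s, h.lk.o] at h2
  simp only [h1, mul_zero] at h2
  exact_mod_cast h2.symm

/-- Two elements of the block, the first of which is fixed by the torus. -/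
theorem Cm.gcd (h : Cm Z b X Q N D) {v : I} {w : ℤ} (hv : Sg X v w) {l : I} (hl : l ∈ Ks X)
    (hvl : v ≠ l) : p < 2 * Nat.gcd (X.d v) (X.d l) := by
  by_contra hlt
  have hfix := h.fix hv
  obtain ⟨h1, h2, h3⟩ := mKs.1 hv.mem
  obtain ⟨k1, k2, k3⟩ := mKs.1 hl
  have hpv := h.pd hv.mem
  have hpl := h.pd hl
  have ho : X.y X.o ≠ 0 := by
    intro h4
    apply h.blk.x_nd
    rw [h4]
    exact dvd_zero _
  have hodd := X.p_odd
  have hlt' : 2 * Nat.gcd (X.d v) (X.d l) < p := by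
    obtain ⟨r, hr⟩ := hodd
    omega
  rw [h.lk.d] at hpv hpl hlt'
  have hcen := gcd_cen Z b h.lk.idp.idem p X.m X.prime h.lk.n_eq X.z h.lk.z v w hfix l hpv hpl hlt'
  refine fix_end Z p 1 b h.lk.idp hodd h.hno v l w (h.w0 hv) hfix (by rw [← h.lk.o]; exact h3)
    (by rw [← h.lk.o]; exact k3) (Ne.symm hvl) (by rw [← h.lk.t]; exact h2)
    (by rw [← h.lk.t]; exact k2) ?_ (h.rne h1) (h.rne k1) hcen
  rw [← h.lk.o] at *
  have := h.rne ho
  rwa [← h.lk.o] at this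

theorem rat_dvd {d : ℕ} (hd : 0 < d) {x : ℤ} {β : ℂ} (hβ : IsIntegral ℤ β)
    (h : (d : ℂ) * β = (x : ℂ)) : ∃ y : ℤ, (d : ℤ) * y = x := by
  have hd0 : (d : ℂ) ≠ 0 := by exact_mod_cast hd.ne'
  have h1 : β = (((x : ℚ) / d : ℚ) : ℂ) := by
    push_cast
    rw [eq_div_iff hd0, mul_comm]
    exact h
  rw [h1] at hβ
  obtain ⟨y, hy⟩ := hRAT'.2 _ hβ
  refine ⟨y, ?_⟩
  have hd1 : (d : ℚ) ≠ 0 := by exact_mod_cast hd.ne'
  have h2 : (d : ℚ) * y = x := by rw [hy]; field_simp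
  exact_mod_cast h2

theorem Cm.om (h : Cm Z b X Q N D) {v : I} {w : ℤ} (hv : Sg X v w) :
    ∃ k : ℤ, (p * k - N) * X.d v = D * w := by
  have hGLA := Helper36.OC.hGLA I Z
  have hpp : Prime (p : ℤ) := Nat.prime_iff_prime_int.1 X.prime
  obtain ⟨b0, hb1, hb2, hb3⟩ := h.one
  obtain ⟨h1, h2, h3⟩ := mKs.1 hv.mem
  have hg : (p : ℤ) - X.y X.o = gX X := rfl
  obtain ⟨-, hD2, -, -⟩ := DRE.hDRE STL.hSTL HEC.hHEC MZZ.hMZZ I p X Q h.blk
  have hd0 : (X.d b0 : ℤ) = D * X.y b0 := by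
    have h5 := hD2 b0 hb1 hb2
    rw [hg, ← h.gD] at h5
    apply mul_left_cancel₀ h.g0
    rw [h5]
    ring
  have h4 := ((TS2.hTS2 ORB.hORB I p X Q h.blk v hv.mem).2) b0 hb2
  rw [hv.orb, Finset.sum_singleton, Finset.card_singleton, hv.y, h.lk.chi] at h4
  have hgC : ((gX X : ℤ) : ℂ) ≠ 0 := by exact_mod_cast h.g0
  have h5 : Cchi Z b0 v = -((w : ℤ) : ℂ) := by
    apply mul_left_cancel₀ hgC
    rw [h4]
    push_cast
    ring
  have h6 : (Z.d v : ℂ) * Cchi Z v b0 = ((-(D * X.y b0 * w) : ℤ) : ℂ) := by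
    rw [← hGLA.Sf_chi, hGLA.Sf_symm, hGLA.Sf_chi, h5]
    have h7 : ((Z.d b0 : ℕ) : ℂ) = ((D * X.y b0 : ℤ) : ℂ) := by
      rw [← hd0, h.lk.d]
      push_cast
      rfl
    rw [h7]
    push_cast
    ring
  obtain ⟨y, hy⟩ := rat_dvd (Z.d_pos v) (hGLA.chi_int v b0) h6
  rw [← h.lk.d] at hy
  have hoy : (-(X.y b0 * y)) * (X.d v : ℤ) = D * w := by
    calc (-(X.y b0 * y)) * (X.d v : ℤ) = -(X.y b0 * ((X.d v : ℤ) * y)) := by ring
      _ = X.y b0 ^ 2 * (D * w) := by rw [hy]; ring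
      _ = D * w := by rw [hb3, one_mul]
  have hF := h.F hv
  have hpw : ¬ (p : ℤ) ∣ w := by
    intro h8
    apply h.pd hv.mem
    have h9 : (p : ℤ) ∣ X.d v := by
      rw [hF]
      exact dvd_sub (dvd_mul_right _ _) h8
    exact_mod_cast h9
  have h8 : (p : ℤ) ∣ w * (gX X * (-(X.y b0 * y)) - 1) := by
    refine ⟨gX X * (-(X.y b0 * y)) * (X.z X.o * w + X.z v) - X.z X.o * w, ?_⟩
    have h9 : gX X * ((-(X.y b0 * y)) * (X.d v : ℤ)) = (p * X.z X.o - 1) * w := by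
      rw [hoy, ← h.gD]; ring
    rw [hF] at h9
    linear_combination (-1 : ℤ) * h9
  have h10 : (p : ℤ) ∣ gX X * (-(X.y b0 * y) + N) := by
    have h11 := (hpp.dvd_or_dvd h8).resolve_left hpw
    have h12 : gX X * (-(X.y b0 * y) + N) = (gX X * (-(X.y b0 * y)) - 1) + p := by
      linear_combination (-1 : ℤ) * h.pN
    rw [h12]
    exact dvd_add h11 (dvd_refl _)
  obtain ⟨k, hk⟩ := (hpp.dvd_or_dvd h10).resolve_left h.gp
  refine ⟨k, ?_⟩
  rw [← hoy]
  have : (p : ℤ) * k - N = -(X.y b0 * y) := by linarith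
  rw [this]

theorem Cm.gm (h : Cm Z b X Q N D) (S : Finset I) (w : I → ℤ) (hS : ∀ v ∈ S, Sg X v (w v)) :
    Gm p X.m N D S w X.d where
  prime := X.prime
  odd := X.p_odd
  m0 := by
    rcases Nat.eq_zero_or_pos X.m with h1 | h1
    · have h2 := h.lk.n_eq
      rw [h1, mul_zero] at h2
      exact absurd h2 Z.n_pos.ne'
    · exact h1
  Dm := h.Dm
  DN := h.DN
  w0 v hv := h.w0 (hS v hv)
  d1 v hv := h.d1 (hS v hv).mem
  pd v hv := h.pd (hS v hv).mem
  dm v hv := h.dm (hS v hv).mem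
  F v hv := by
    rw [h.F (hS v hv)]
    refine ⟨X.z X.o * w v + X.z v, ?_⟩
    ring
  om v hv := h.om (hS v hv)
  gcd v hv v' hv' hne := h.gcd (hS v hv) (hS v' hv').mem hne

end

theorem single_of_card {p : ℕ} [NeZero p] {X : PD I p 1} {Q : ℂ → Prop} (hB : Blk X Q) {v : I}
    (hv : v ∈ Ks X) (h1 : (Orb X v).card = 1) : Sg X v (X.y v / gX X) := by
  have hO := ORB.hORB I p X
  obtain ⟨k1, k2, k3⟩ := mKs.1 hv
  have h4 := (TSU.hTSU STL.hSTL HEC.hHEC MZZ.hMZZ hRAT' I p X Q hB v k1 k2 k3).2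
  rw [h1, Nat.cast_one, one_mul] at h4
  refine ⟨hv, ?_, (Int.mul_ediv_cancel' h4).symm⟩
  obtain ⟨x, hx⟩ := Finset.card_eq_one.1 h1
  have h2 := hO.self v
  rw [hx, Finset.mem_singleton] at h2
  rw [hx, h2]

/-- the sums over the block -/
theorem sum_split {p : ℕ} [NeZero p] {X : PD I p 1} (a w : I) (g : ℤ)
    (hOw : ∀ i ∈ Orb X w, i ∈ Kp X a) (hg : ((Orb X w).card : ℤ) = g) (f : I → ℤ)
    (hf : ∀ i ∈ Orb X w, f i = f w) [DecidablePred fun k => k ∉ Orb X w] :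
    ∑ k ∈ Kp X a, f k = g * f w + ∑ k ∈ (Kp X a).filter (fun k => k ∉ Orb X w), f k := by
  rw [← Finset.sum_filter_add_sum_filter_not (Kp X a) (fun k => k ∈ Orb X w)]
  congr 1
  have h1 : (Kp X a).filter (fun k => k ∈ Orb X w) = Orb X w := by
    ext i
    simp only [Finset.mem_filter]
    exact ⟨fun h => h.2, fun h => ⟨hOw i h, h⟩⟩
  rw [h1, Finset.sum_congr rfl hf, Finset.sum_const, nsmul_eq_mul, hg]

/-- **Main case, `a = 1`**: from the last alternative of `END1` to the data `Gm1`, `Gm2`. -/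
theorem main0 (Z : CentreData I) (p : ℕ) [NeZero p] (b : ZMod Z.L) (X : PD I p 1) (Q : ℂ → Prop)
    (hL : Lk Z b X) (hB : Blk X Q) (hno : ¬ ∃ D : I → Prop, TanSet Z D) (C : CE I p)
    (hCd : C.d = X.d) (hCy : C.y = X.y) (hCK : C.K = Ks X) (hCO : C.O = Orb X)
    (hCg : C.g = gX X) (a : I) (h4 : Alt4 C a) : ∃ (N : ℕ) (S : Finset I) (w : I → ℤ),
      Gm1 p X.m N C.D S w X.d ∨ ∃ (g : ℕ) (W : I), W ∈ C.K ∧
        Gm2 p X.m N g C.D S w X.d (X.y W) (X.d W) := by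
  classical
  have hO := ORB.hORB I p X
  have hMZ := MZZ.hMZZ I p X hB.x_nd
  obtain ⟨hD1, hD2, hD3, hD4⟩ := DRE.hDRE STL.hSTL HEC.hHEC MZZ.hMZZ I p X Q hB
  have hgdef : (p : ℤ) - X.y X.o = gX X := rfl
  have hg1 : 1 ≤ gX X := hMZ.2.2.2.2.1
  have hg0 : gX X ≠ 0 := by omega
  have haK : a ∈ Ks X := by
    have := h4.mem
    rwa [hCK] at this
  have hay : X.y a ^ 2 = 1 := by
    have := h4.y1
    rwa [hCy] at this
  have haO : ((Orb X a).card : ℤ) = gX X := by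
    have := h4.card
    rwa [hCO, hCg] at this
  -- the number `N`
  obtain ⟨N, hN⟩ : ∃ N : ℕ, (p : ℤ) - 1 = N * gX X := by
    refine ⟨(Finset.univ.filter fun c => X.pi c a = a).card, ?_⟩
    have h1 := hO.card a
    rw [← haO]
    have h2 := X.prime.one_le
    have h3 : ((p - 1 : ℕ) : ℤ) = (p : ℤ) - 1 := by
      rw [Nat.cast_sub h2, Nat.cast_one]
    rw [← h3, ← h1]
    push_cast
    ring
  -- the number `D`
  have hsumK : ∑ k ∈ Ks X, X.y k * (X.d k : ℤ) = (p * X.z X.o - 1) + gX X := by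
    have h1 : (∑ k, if X.t k = 1 then X.y k * (X.d k : ℤ) else 0) =
        ∑ k ∈ insert X.o (Ks X), X.y k * (X.d k : ℤ) := by
      rw [← Finset.sum_filter]
      symm
      refine Finset.sum_subset ?_ ?_
      · intro k hk
        rcases Finset.mem_insert.1 hk with rfl | hk
        · exact Finset.mem_filter.2 ⟨Finset.mem_univ _, X.t_o⟩
        · exact Finset.mem_filter.2 ⟨Finset.mem_univ _, (mKs.1 hk).2.1⟩
      · intro k hk hk'
        have hy : X.y k = 0 := by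
          by_contra hy
          apply hk'
          by_cases hko : k = X.o
          · rw [hko]
            exact Finset.mem_insert_self _ _
          · exact Finset.mem_insert_of_mem
              (mKs.2 ⟨hy, (Finset.mem_filter.1 hk).2, hko⟩)
        rw [hy, zero_mul]
    rw [Finset.sum_insert (fun h => (mKs.1 h).2.2 rfl), X.d_o] at h1
    push_cast at h1
    linarith [hD3, h1]
  have hgD : gX X * C.D = p * X.z X.o - 1 := by
    have h1 := C.dim
    rw [hCK, hCy, hCd, hCg, hsumK] at h1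
    linear_combination -h1
  have hDa : C.D * X.y a = X.d a := by
    have := h4.Dy
    rwa [hCy, hCd] at this
  have hDm : C.D ∣ X.m := by
    have h1 := X.d_dvd a
    have h2 := hB.d_nd a (mKs.1 haK).1
    have h3 : X.d a ∣ X.m :=
      ((Nat.Prime.coprime_iff_not_dvd X.prime).2 h2).symm.dvd_of_dvd_mul_left h1
    exact (Dvd.intro _ hDa).trans (Int.natCast_dvd_natCast.2 h3)
  have hKpE : C.K \ C.O a = Kp X a := by
    ext k
    rw [hCK, hCO]
    simp only [Kp, Finset.mem_sdiff, Finset.mem_filter]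
  have hG : Gam X Q N a := by
    refine ⟨hB, hN, haK, hay, haO, ?_, ?_⟩
    · have := h4.sq
      rwa [hKpE, hCy, hCg] at this
    · have := h4.dim
      rwa [hKpE, hCy, hCd, hCg] at this
  have hKp : ∀ {v : I}, v ∈ Kp X a ↔ v ∈ Ks X ∧ v ∉ Orb X a := by
    intro v
    simp only [Kp, Finset.mem_filter]
  have hKpS : ∀ {v : I}, v ∈ Kp X a → v ∈ Ks X := fun h => (hKp.1 h).1
  have hcm : (∀ j, X.y j ≠ 0 → X.t j ≠ 1 → X.y j ^ 2 = 1) → Cm Z b X Q N C.D := by
    intro h1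
    obtain ⟨b0, hb1, hb2⟩ := hMZ.2.2.1
    exact ⟨hL, hB, hno, hN, hgD, hDm, b0, hb1, hb2, h1 b0 hb1 hb2⟩
  have hOpos : ∀ k, 1 ≤ (Orb X k).card := fun k => Finset.card_pos.2 ⟨k, hO.self k⟩
  rcases (by omega : gX X = 1 ∨ 2 ≤ gX X) with hge | hge
  · -- `g = 1`
    have hc := hcm (EQY.sq_one X hB.x_nd hge)
    have hR := RB.hRB IB.hIB TS2.hTS2 ORB.hORB E3.hE3 E2.hE2 E4.hE4 I p X Q hB
    rw [hge] at hR
    have hsing : ∀ k ∈ Ks X, (Orb X k).card = 1 := by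
      intro k hk
      have hterm : ∀ j ∈ Ks X, (0 : ℝ) ≤ 1 - 1 / ((Orb X j).card : ℝ) := by
        intro j _
        have h1 : (1 : ℝ) ≤ ((Orb X j).card : ℝ) := by exact_mod_cast hOpos j
        have h2 : 1 / ((Orb X j).card : ℝ) ≤ 1 := by
          rw [div_le_one (by linarith)]; exact h1
        linarith
      have h1 := Finset.single_le_sum hterm hk
      have h2 : 1 - 1 / ((Orb X k).card : ℝ) ≤ 0 := by
        refine h1.trans (hR.trans ?_)
        push_cast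
        norm_num
      by_contra hne
      have h3 : 2 ≤ (Orb X k).card := by
        have := hOpos k
        omega
      have h4 : (2 : ℝ) ≤ ((Orb X k).card : ℝ) := by exact_mod_cast h3
      have h5 : 1 / ((Orb X k).card : ℝ) ≤ 1 / 2 :=
        one_div_le_one_div_of_le (by norm_num) h4
      linarith
    have hw : ∀ v, X.y v / gX X = X.y v := by
      intro v
      rw [hge, Int.ediv_one]
    have hgm := hc.gm (Kp X a) (fun v => X.y v / gX X)
      (fun v hv => single_of_card hB (hKpS hv) (hsing v (hKpS hv)))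
    refine ⟨N, Kp X a, fun v => X.y v / gX X, Or.inl ⟨hgm, ?_, ?_, ?_, ?_⟩⟩
    · have h1 := hN
      rw [hge, mul_one] at h1
      have : (p : ℤ) = ((1 + N : ℕ) : ℤ) := by
        push_cast
        linarith
      exact_mod_cast this
    · simp only [hw]
      rw [hG.sq, hge]
      have h1 := hN
      rw [hge] at h1
      linarith
    · simp only [hw]
      rw [hG.dm, hge]
    · intro v hv
      rw [hw]
      have h1 := h4.ne v (by rw [hKpE]; exact hv)
      rwa [hCy, hCd] at h1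
  · -- `g ≥ 2`
    obtain ⟨hn, hst⟩ := LKN.hLKN I Z p b X hL
    have hGA := GA2.hGA2 I p X hst
    obtain ⟨W, hW, hWO⟩ := GPP.hGPP GPZ.hGPZ MXX.hMXX Helper3.OC.hPRV Helper33.OC.hCMM TS2.hTS2
      ORB.hORB E4.hE4 E2.hE2 I p X Q N a hG hge hGA hn
    have hKSS := KSS.hKSS RB.hRB IB.hIB TS2.hTS2 ORB.hORB E3.hE3 E2.hE2 E4.hE4 I p X Q N a hG hge
      W hW hWO
    have hc := hcm (EQY.sq_ge2 RBE.hRBE IB.hIB TS2.hTS2 ORB.hORB E3.hE3 E2.hE2 E4.hE4 I p X Q N a
      W hG hge hW hWO)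
    have hWa := (hKp.1 hW).2
    have hWK := hKpS hW
    have hOw : ∀ i ∈ Orb X W, i ∈ Kp X a := by
      intro i hi
      obtain ⟨e1, e2, e3⟩ := mKs.1 hWK
      refine hKp.2 ⟨mKs.2 ⟨?_, hO.t W i hi e2, ?_⟩, fun h1 => hWa ?_⟩
      · rw [hO.y W i hi]; exact e1
      · rintro rfl
        exact e3 (hO.o W hi)
      · have h2 := hO.eq W i hi
        have h3 := hO.eq a i h1
        rw [← h3, h2]
        exact hO.self W
    set S : Finset I := (Kp X a).filter fun k => k ∉ Orb X W with hS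
    have hSm : ∀ v ∈ S, v ∈ Kp X a ∧ v ∉ Orb X W := fun v hv => by
      rw [hS] at hv
      exact Finset.mem_filter.1 hv
    have hSg : ∀ v ∈ S, Sg X v (X.y v / gX X) := fun v hv =>
      single_of_card hB (hKpS (hSm v hv).1) (hKSS v (hSm v hv).1 (hSm v hv).2)
    have hgm := hc.gm S (fun v => X.y v / gX X) hSg
    have hW' : ∀ v ∈ S, X.y v = gX X * (X.y v / gX X) := fun v hv => (hSg v hv).y
    refine ⟨N, S, fun v => X.y v / gX X, Or.inr ⟨(Orb X a).card, W, by rw [hCK]; exact hWK,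
      ⟨hgm, ?_, ?_, ?_, ?_, ?_, ?_, ?_⟩⟩⟩
    · have : (2 : ℤ) ≤ ((Orb X a).card : ℤ) := by rw [haO]; exact hge
      exact_mod_cast this
    · have : (p : ℤ) = ((1 + N * (Orb X a).card : ℕ) : ℤ) := by
        push_cast
        rw [haO]
        linarith
      exact_mod_cast this
    · rw [haO]
      have h1 := hG.sq
      rw [sum_split a W (gX X) hOw hWO (fun k => X.y k ^ 2)
        (fun i hi => by simp only [hO.y W i hi])] at h1
      have h2 : ∑ k ∈ S, X.y k ^ 2 = gX X * (gX X * ∑ v ∈ S, (X.y v / gX X) ^ 2) := by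
        rw [Finset.mul_sum, Finset.mul_sum]
        refine Finset.sum_congr rfl fun v hv => ?_
        nth_rw 1 [hW' v hv]
        ring
      rw [← hS, h2] at h1
      apply mul_left_cancel₀ hg0
      rw [mul_add]
      exact h1
    · have h1 := hG.dm
      rw [sum_split a W (gX X) hOw hWO (fun k => X.y k * (X.d k : ℤ))
        (fun i hi => by simp only [hO.y W i hi, hO.d W i hi])] at h1
      have h2 : ∑ k ∈ S, X.y k * (X.d k : ℤ) =
          gX X * ∑ v ∈ S, (X.y v / gX X) * (X.d v : ℤ) := by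
        rw [Finset.mul_sum]
        refine Finset.sum_congr rfl fun v hv => ?_
        nth_rw 1 [hW' v hv]
        ring
      rw [← hS, h2] at h1
      apply mul_left_cancel₀ hg0
      rw [mul_add, mul_one]
      exact h1
    · exact hc.d1 hWK
    · exact hc.dm hWK
    · intro v hv
      refine hc.gcd (hSg v hv) hWK ?_
      rintro rfl
      exact (hSm v hv).2 (hO.self v)

/-- **Main case, `a = 1`**: from the last alternative of `END1` to the numerical conclusion. -/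
theorem main1 (Z : CentreData I) (p : ℕ) [NeZero p] (b : ZMod Z.L) (X : PD I p 1) (Q : ℂ → Prop)
    (hL : Lk Z b X) (hB : Blk X Q) (hno : ¬ ∃ D : I → Prop, TanSet Z D) (C : CE I p)
    (hCd : C.d = X.d) (hCy : C.y = X.y) (hCK : C.K = Ks X) (hCO : C.O = Orb X)
    (hCg : C.g = gX X) (a : I) (h4 : Alt4 C a) : Conc p X.m := by
  obtain ⟨N, S, w, h | ⟨g, W, -, h⟩⟩ := main0 Z p b X Q hL hB hno C hCd hCy hCK hCO hCg a h4
  · exact num1 h
  · exact num2 h

end Pool.Agent.Helper94.BRE
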