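import Pool.Agent.Helper4.PQ0.Defs
import Pool.Agent.Helper79.AL.St1

/-! # Project BRE (MP_2b6189_al): the main case `a = 1` without parity.  Statements

Copies of the statements of `Pool.Agent.Helper89.OC` and `Pool.Agent.Helper79.AL` for the parity-free structure
`Pool.Agent.Helper4.PQ0.PD`. -/

set_option autoImplicit false

namespace Pool.Agent.Helper94.BRE

open Matrix ComplexConjugate Pool.Agent.Helper94.YG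
open Pool.Agent.Helper94.YF hiding StORB
open Pool.Agent.Helper89.OS hiding PD Cx Blk B0 Orb StXA StXB StXC StXE StCGR StISO StBLK StAMG StHEC StSTL StMZZ StDRE StTSU
open Pool.Agent.Helper89.OC hiding Ks gX OB Lk StORB StTS2 StLKD StTAN GA Kp Gam StGA2 StE2 StE4 StE3 StIB StRB StMXX StGPZ StGPP StKSS StLKN
open Pool.Agent.Helper4.PQ0

structure GA {I : Type} [Fintype I] [DecidableEq I] {p : ℕ} (X : PD I p 1) : Prop where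
  gal2 : ∀ (σ : ℂ ≃+* ℂ) (w : (ZMod (p ^ 1))ˣ),
    (∀ ζ : ℂ, ζ ^ p = 1 → σ ζ = ζ ^ (w : ZMod (p ^ 1)).val) →
    ∀ i j, σ (X.s i j) = X.s i (X.pi w j)
  exs : ∀ w : (ZMod (p ^ 1))ˣ, ∃ σ : ℂ ≃+* ℂ, ∀ ζ : ℂ, ζ ^ p = 1 →
    σ ζ = ζ ^ (w : ZMod (p ^ 1)).val
  pi_st : ∀ c i, X.pi c (X.st i) = X.st (X.pi c i)

open Classical in
noncomputable def Kp {I : Type} [Fintype I] [DecidableEq I] {p : ℕ} (X : PD I p 1) (a : I) :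
    Finset I := (Ks X).filter fun k => k ∉ Orb X a

def StGA2 : Prop := ∀ (I : Type) [Fintype I] [DecidableEq I] (p : ℕ) [NeZero p] (X : PD I p 1),
  (∀ i k, X.s (X.st i) (X.st k) = X.s i k) → GA X

open Classical in
def StE2 : Prop := ∀ (I : Type) [Fintype I] [DecidableEq I] (p : ℕ) [NeZero p] (X : PD I p 1)
  (u : I → ℂ), (∀ i, u i ≠ 0 → X.t i = 1) → ∀ ζ : ℂ, ζ ^ p = 1 →
  ((∑ j, (if X.t j = ζ then ‖∑ k, X.s j k * u k‖ ^ 2 else 0) : ℝ) : ℂ) =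
    (p : ℂ) * ((∑ k, ‖u k‖ ^ 2 : ℝ) : ℂ) + ∑ c : (ZMod (p ^ 1))ˣ,
      ζ ^ (((c⁻¹ : (ZMod (p ^ 1))ˣ) : ZMod (p ^ 1))).val *
        ∑ i, ∑ k, conj (u i) * (X.s i (X.pi c k) * u k)

open Classical in
def StE4 : Prop := StE2 → StORB → ∀ (I : Type) [Fintype I] [DecidableEq I] (p : ℕ) [NeZero p]
  (X : PD I p 1) (u : I → ℂ), (∀ i, u i ≠ 0 → X.t i = 1) → (∀ k, ∑ c, u (X.pi c k) = 0) →
  (∑ j, if X.t j = 1 then ‖∑ k, X.s j k * u k‖ ^ 2 else 0) = (p : ℝ) * ∑ k, ‖u k‖ ^ 2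

open Classical in
def StE3 : Prop := StE2 → StE4 → StORB → ∀ (I : Type) [Fintype I] [DecidableEq I] (p : ℕ)
  [NeZero p] (X : PD I p 1) (u : I → ℂ), (∀ i, u i ≠ 0 → X.t i = 1) → ∀ ζ : ℂ, ζ ^ p = 1 →
  ζ ≠ 1 → (∑ j, if X.t j = ζ then ‖∑ k, X.s j k * u k‖ ^ 2 else 0) ≤
    2 * (p : ℝ) * ∑ k, ‖u k‖ ^ 2

open Classical in
def StIB : Prop := StE3 → StE2 → StE4 → StORB → ∀ (I : Type) [Fintype I] [DecidableEq I] (p : ℕ)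
  [NeZero p] (X : PD I p 1), ¬ (p : ℤ) ∣ X.y X.o → ∀ (b : I), X.t b ≠ 1 →
  (∑ k, if X.t k = 1 then ‖X.s b k‖ ^ 2 else 0) ≤
    2 * (p : ℝ) - ((p : ℝ) - 1) * (X.y b : ℝ) ^ 2 / (gX X : ℝ)

open Classical in
def StRB : Prop := StIB → StTS2 → StORB → StE3 → StE2 → StE4 → ∀ (I : Type) [Fintype I]
  [DecidableEq I] (p : ℕ) [NeZero p] (X : PD I p 1) (Q : ℂ → Prop), Blk X Q →
  ∑ k ∈ Ks X, (1 - 1 / ((Orb X k).card : ℝ)) ≤ 2 * (gX X : ℝ) - 2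

def StMXX : Prop := ∀ (I : Type) [Fintype I] [DecidableEq I] (p : ℕ) [NeZero p] (X : PD I p 1),
  GA X → (∀ i k, X.s i k * (X.t i * X.t k) =
    ∑ l, (X.N i (X.st k) l : ℂ) * (X.t l * X.y l)) →
  ∀ k l, X.t k = 1 → X.t l = 1 → ∃ m : (ZMod (p ^ 1))ˣ → ℤ,
    (∀ c, X.s k (X.pi c l) = Fm p m c) ∧
    ∀ c, (X.pi c k = k ∨ X.pi c l = l) → ∀ x, m (c * x) = m x

def StGPZ : Prop := StE4 → StE2 → StORB → ∀ (I : Type) [Fintype I] [DecidableEq I] (p : ℕ)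
  [NeZero p] (X : PD I p 1) (Q : ℂ → Prop), Blk X Q → ∀ a ∈ Ks X,
  ∑ l ∈ Ks X, (((p : ℝ) - 1) * ∑ c, ‖X.s a (X.pi c l)‖ ^ 2 - ‖∑ c, X.s a (X.pi c l)‖ ^ 2) =
    (p : ℝ) * ((p : ℝ) - 1) ^ 2 * (1 - 1 / ((Orb X a).card : ℝ))

def StRBE : Prop := StIB → StTS2 → StORB → StE3 → StE2 → StE4 → ∀ (I : Type) [Fintype I]
  [DecidableEq I] (p : ℕ) [NeZero p] (X : PD I p 1) (Q : ℂ → Prop), Blk X Q →
  ((p : ℝ) - 1) * (p * (∑ k ∈ Ks X, (1 - 1 / ((Orb X k).card : ℝ))) + p + 1) +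
    ((p : ℝ) - 1) ^ 2 ≤ 2 * p * (open Classical in
      (Finset.univ.filter fun b => X.y b ≠ 0 ∧ X.t b ≠ 1).card : ℝ)

/-- The main case without parity: `a` is an exceptional object, `N = (p - 1) / g`. -/
structure Gam {I : Type} [Fintype I] [DecidableEq I] {p : ℕ} (X : PD I p 1) (Q : ℂ → Prop)
    (N : ℕ) (a : I) : Prop where
  blk : Blk X Q
  pN : (p : ℤ) - 1 = N * gX X
  aK : a ∈ Ks X
  ay : X.y a ^ 2 = 1
  aO : ((Orb X a).card : ℤ) = gX X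
  sq : ∑ k ∈ Kp X a, X.y k ^ 2 = gX X * (p - gX X)
  dm : ∑ k ∈ Kp X a, X.y k * (X.d k : ℤ) = gX X

def StGPP : Prop := StGPZ → StMXX → StPRV → StCMM → StTS2 → StORB → StE4 → StE2 →
  ∀ (I : Type) [Fintype I] [DecidableEq I] (p : ℕ) [NeZero p] (X : PD I p 1) (Q : ℂ → Prop)
  (N : ℕ) (a : I), Gam X Q N a → 2 ≤ gX X → GA X → (∀ i k, X.s i k * (X.t i * X.t k) =
    ∑ l, (X.N i (X.st k) l : ℂ) * (X.t l * X.y l)) →
  ∃ w ∈ Kp X a, ((Orb X w).card : ℤ) = gX X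

def StKSS : Prop := StRB → StIB → StTS2 → StORB → StE3 → StE2 → StE4 → ∀ (I : Type) [Fintype I]
  [DecidableEq I] (p : ℕ) [NeZero p] (X : PD I p 1) (Q : ℂ → Prop) (N : ℕ) (a : I),
  Gam X Q N a → 2 ≤ gX X → ∀ w ∈ Kp X a, ((Orb X w).card : ℤ) = gX X →
  ∀ k ∈ Kp X a, k ∉ Orb X w → (Orb X k).card = 1

def StLKN : Prop := ∀ (I : Type) [Fintype I] [DecidableEq I] (Z : CentreData I) (p : ℕ)
  (b : ZMod Z.L) (X : PD I p 1), Lk Z b X →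
  (∀ i k, X.s i k * (X.t i * X.t k) = ∑ l, (X.N i (X.st k) l : ℂ) * (X.t l * X.y l)) ∧
  (∀ i k, X.s (X.st i) (X.st k) = X.s i k)

end Pool.Agent.Helper94.BRE
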