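import Pool.Agent.Helper94.BRE.Defs
import Pool.Agent.Helper4.PQ0.M_MZZ
import Pool.Agent.Helper4.PQ0.M_HEC
import Pool.Agent.Helper4.PQ0.M_STL
import Pool.Agent.Helper4.PQ0.M_DRE
import Pool.Agent.Helper94.BRE.M_RB
/-! # AL MODULE EQY (MP_2b6189_al): equality in the rank bound -/

set_option autoImplicit false

namespace Pool.Agent.Helper94.BRE.EQY

open Matrix ComplexConjugate Pool.Agent.Helper94.YG
open Pool.Agent.Helper94.YF hiding StORB
open Pool.Agent.Helper89.OS hiding PD Cx Blk B0 Orb StXA StXB StXC StXE StCGR StISO StBLK StAMG StHEC StSTL StMZZ StDRE StTSU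
open Pool.Agent.Helper89.OC hiding Ks gX OB Lk StORB StTS2 StLKD StTAN GA Kp Gam StGA2 StE2 StE4 StE3 StIB StRB StMXX StGPZ StGPP StKSS StLKN
open Pool.Agent.Helper4.PQ0 Pool.Agent.Helper94.BRE
open RB



theorem sq_ge2 (hRBE : StRBE) (hIB : StIB) (hTS2 : StTS2) (hORB : StORB) (hE3 : StE3)
    (hE2 : StE2) (hE4 : StE4) (I : Type) [Fintype I] [DecidableEq I] (p : ℕ) [NeZero p]
    (X : PD I p 1) (Q : ℂ → Prop) (N : ℕ) (a w : I) (hG : Gam X Q N a)
    (hg2 : 2 ≤ gX X) (hw : w ∈ Kp X a) (hwg : ((Orb X w).card : ℤ) = gX X) :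
    ∀ j, X.y j ≠ 0 → X.t j ≠ 1 → X.y j ^ 2 = 1 := by
  classical
  have hB := hG.blk
  have hO := hORB I p X
  have hgR : (2 : ℝ) ≤ (gX X : ℝ) := by exact_mod_cast hg2
  have hp2 : (2 : ℝ) ≤ (p : ℝ) := by exact_mod_cast X.prime.two_le
  have hKs : ∀ k ∈ Ks X, ∀ j ∈ Orb X k, j ∈ Ks X := by
    intro k hk j hj
    obtain ⟨h1, h2, h3⟩ := (mem_Ks X k).1 hk
    refine (mem_Ks X j).2 ⟨?_, hO.t k j hj h2, ?_⟩
    · rw [hO.y k j hj]
      exact h1
    · rintro rfl
      exact h3 (hO.o k hj)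
  have hwK : w ∈ Ks X ∧ w ∉ Orb X a := by
    simpa only [Kp, Finset.mem_filter] using hw
  have hdis : Disjoint (Orb X a) (Orb X w) := by
    rw [Finset.disjoint_left]
    intro j hj hj'
    apply hwK.2
    rw [← hO.eq a j hj, hO.eq w j hj']
    exact hO.self w
  -- the sum
  have hR : 2 * (gX X : ℝ) - 2 ≤ ∑ k ∈ Ks X, (1 - 1 / ((Orb X k).card : ℝ)) := by
    have h1 : ∑ k ∈ Orb X a ∪ Orb X w, (1 - 1 / ((Orb X k).card : ℝ)) = 2 * (gX X : ℝ) - 2 := by
      have hca : ((Orb X a).card : ℝ) = gX X := by exact_mod_cast hG.aO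
      have hcw : ((Orb X w).card : ℝ) = gX X := by exact_mod_cast hwg
      rw [Finset.sum_union hdis, Finset.sum_congr rfl (fun k hk => by rw [hO.eq a k hk]),
        Finset.sum_congr (s₁ := Orb X w) rfl (fun k hk => by rw [hO.eq w k hk]),
        Finset.sum_const, Finset.sum_const, nsmul_eq_mul, nsmul_eq_mul, hca, hcw]
      have : (gX X : ℝ) ≠ 0 := by linarith
      field_simp
      ring
    rw [← h1]
    refine Finset.sum_le_sum_of_subset_of_nonneg ?_ ?_
    · intro j hj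
      rcases Finset.mem_union.1 hj with hj | hj
      · exact hKs a hG.aK j hj
      · exact hKs w hwK.1 j hj
    · intro k hk _
      have h2 : (1 : ℝ) ≤ ((Orb X k).card : ℝ) := by
        have : 0 < (Orb X k).card := Finset.card_pos.2 ⟨k, hO.self k⟩
        exact_mod_cast this
      rw [sub_nonneg, div_le_one (by linarith)]
      exact h2
  have hRB := hRBE hIB hTS2 hORB hE3 hE2 hE4 I p X Q hB
  set E : Finset I := Finset.univ.filter fun b => X.y b ≠ 0 ∧ X.t b ≠ 1 with hE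
  have hEc : ((p : ℝ) - 1) * gX X ≤ (E.card : ℝ) := by
    have h1 : ((p : ℝ) - 1) * (p * (2 * (gX X : ℝ) - 2) + p + 1) ≤ ((p : ℝ) - 1) *
        (p * (∑ k ∈ Ks X, (1 - 1 / ((Orb X k).card : ℝ))) + p + 1) := by
      apply mul_le_mul_of_nonneg_left _ (by linarith)
      have := mul_le_mul_of_nonneg_left hR (by linarith : (0 : ℝ) ≤ p)
      linarith
    have h2 : 2 * (p : ℝ) * (((p : ℝ) - 1) * gX X) ≤ 2 * (p : ℝ) * (E.card : ℝ) := by
      nlinarith [h1, hRB]
    exact le_of_mul_le_mul_left h2 (by linarith)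
  have hEs : ∑ j ∈ E, (X.y j : ℝ) ^ 2 = ((p : ℝ) - 1) * (gX X : ℝ) := by
    rw [← sum_y_ne X hB.x_nd, hE, Finset.sum_filter]
    refine Finset.sum_congr rfl fun j _ => ?_
    by_cases ht : X.t j = 1
    · rw [if_pos ht, if_neg (fun h => h.2 ht)]
    · rw [if_neg ht]
      by_cases hy : X.y j = 0
      · rw [if_neg (fun h => h.1 hy), hy]
        simp
      · rw [if_pos ⟨hy, ht⟩]
  have hone : ∀ j ∈ E, (1 : ℝ) ≤ (X.y j : ℝ) ^ 2 := by
    intro j hj
    have h1 : X.y j ≠ 0 := ((Finset.mem_filter.1 hj).2).1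
    have h2 : (1 : ℤ) ≤ X.y j ^ 2 := by
      have : 0 < X.y j ^ 2 := by positivity
      omega
    exact_mod_cast h2
  have hy2 : ∀ j ∈ E, X.y j ^ 2 = 1 := by
    have h1 : ∑ j ∈ E, ((X.y j : ℝ) ^ 2 - 1) = 0 := by
      apply le_antisymm
      · rw [Finset.sum_sub_distrib, hEs, Finset.sum_const, nsmul_eq_mul, mul_one]
        linarith
      · exact Finset.sum_nonneg fun j hj => by linarith [hone j hj]
    have h2 := (Finset.sum_eq_zero_iff_of_nonneg fun j hj => by linarith [hone j hj]).1 h1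
    intro j hj
    have h3 := h2 j hj
    have h4 : (X.y j : ℝ) ^ 2 = 1 := by linarith
    exact_mod_cast h4
  intro j h1 h2
  exact hy2 j (Finset.mem_filter.2 ⟨Finset.mem_univ _, h1, h2⟩)

open Classical in
/-- the case `g = 1` -/
theorem sq_one {I : Type} [Fintype I] [DecidableEq I] {p : ℕ} (X : PD I p 1)
    (hx : ¬ (p : ℤ) ∣ X.y X.o) (hg : gX X = 1) :
    ∀ j, X.y j ≠ 0 → X.t j ≠ 1 → X.y j ^ 2 = 1 := by
  intro j h1 h2
  have hM := (MZZ.hMZZ I p X hx).1 (X.t j) h2 (by have := X.t_pow j; rwa [pow_one] at this)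
  have h3 : (p : ℤ) - X.y X.o = 1 := hg
  rw [h3] at hM
  have h4 : X.y j ^ 2 ≤ ∑ i, if X.t i = X.t j then X.y i ^ 2 else 0 := by
    have h5 := Finset.single_le_sum (f := fun i => if X.t i = X.t j then X.y i ^ 2 else 0)
      (fun i _ => by
        show 0 ≤ if X.t i = X.t j then X.y i ^ 2 else 0
        split_ifs
        · positivity
        · exact le_rfl) (Finset.mem_univ j)
    simpa using h5
  rw [hM] at h4
  have h6 : 0 < X.y j ^ 2 := by positivity
  omega

end Pool.Agent.Helper94.BRE.EQY
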